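import Mathlib

set_option autoImplicit false

/-! Bounded differences on the cube of subsets of a finite set. -/

namespace Pool.Agent.K9h39.CD

open Finset

theorem exp_add_exp_le (x y b : ℝ) (h : |y - x| ≤ 2 * b) :
    Real.exp x + Real.exp y ≤ 2 * Real.exp (b ^ 2 / 2) * Real.exp ((x + y) / 2) := by
  have h1 : Real.exp x + Real.exp y = 2 * Real.cosh ((y - x) / 2) * Real.exp ((x + y) / 2) := by
    rw [Real.cosh_eq]
    have e1 : Real.exp y = Real.exp ((y - x) / 2) * Real.exp ((x + y) / 2) := by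
      rw [← Real.exp_add]; congr 1; ring
    have e2 : Real.exp x = Real.exp (-((y - x) / 2)) * Real.exp ((x + y) / 2) := by
      rw [← Real.exp_add]; congr 1; ring
    rw [e1, e2]; ring
  rw [h1]
  have h2 : Real.cosh ((y - x) / 2) ≤ Real.exp (b ^ 2 / 2) := by
    refine (Real.cosh_le_exp_half_sq _).trans (Real.exp_le_exp.2 ?_)
    have h3 : ((y - x) / 2) ^ 2 ≤ b ^ 2 := by
      rw [← sq_abs ((y - x) / 2)]
      apply pow_le_pow_left₀ (abs_nonneg _)
      rw [abs_div, abs_two]
      linarith
    linarith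
  have h4 := Real.exp_pos ((x + y) / 2)
  nlinarith

theorem mgf (S0 S1 : Finset ℕ) (hd : Disjoint S0 S1) (b : ℝ) :
    ∀ G : Finset ℕ → ℝ,
      (∀ j ∈ S1, ∀ T ⊆ S0 ∪ S1, j ∉ T → |G (insert j T) - G T| ≤ 2 * b) →
      (∀ T0 ⊆ S0, ∑ T1 ∈ S1.powerset, G (T0 ∪ T1) = 0) →
      ∑ T ∈ (S0 ∪ S1).powerset, Real.exp (G T) ≤
        2 ^ (S0.card + S1.card) * Real.exp (S1.card * b ^ 2 / 2) := by
  induction S1 using Finset.induction_on with
  | empty =>
    intro G _ hm
    have h0 : ∀ T ∈ (S0 ∪ ∅).powerset, Real.exp (G T) = 1 := by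
      intro T hT
      rw [Finset.union_empty, Finset.mem_powerset] at hT
      have := hm T hT
      simp only [Finset.powerset_empty, Finset.sum_singleton, Finset.union_empty] at this
      rw [this, Real.exp_zero]
    rw [Finset.sum_congr rfl h0]
    simp
  | insert a S1 ha ih =>
    intro G hb hm
    have haS0 : a ∉ S0 := fun h => (Finset.disjoint_left.1 hd h) (Finset.mem_insert_self _ _)
    have hd' : Disjoint S0 S1 := hd.mono_right (Finset.subset_insert _ _)
    have haU : a ∉ S0 ∪ S1 := by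
      rw [Finset.mem_union]; tauto
    rw [Finset.union_insert, Finset.sum_powerset_insert haU, ← Finset.sum_add_distrib]
    have hIH := ih hd' (fun T => (G T + G (insert a T)) / 2) ?_ ?_
    · have h1 : ∀ T ∈ (S0 ∪ S1).powerset, Real.exp (G T) + Real.exp (G (insert a T)) ≤
          2 * Real.exp (b ^ 2 / 2) * Real.exp ((G T + G (insert a T)) / 2) := by
        intro T hT
        apply exp_add_exp_le
        rw [Finset.mem_powerset] at hT
        apply hb a (Finset.mem_insert_self _ _) T
        · rw [Finset.union_insert]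
          exact hT.trans (Finset.subset_insert _ _)
        · exact fun h => haU (hT h)
      refine (Finset.sum_le_sum h1).trans ?_
      rw [← Finset.mul_sum]
      have h2 : 2 * Real.exp (b ^ 2 / 2) *
          ∑ T ∈ (S0 ∪ S1).powerset, Real.exp ((G T + G (insert a T)) / 2) ≤
          2 * Real.exp (b ^ 2 / 2) * (2 ^ (S0.card + S1.card) * Real.exp (S1.card * b ^ 2 / 2)) :=
        mul_le_mul_of_nonneg_left hIH (by positivity)
      refine h2.trans (le_of_eq ?_)
      rw [Finset.card_insert_of_notMem ha]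
      have h3 : Real.exp (((S1.card + 1 : ℕ) : ℝ) * b ^ 2 / 2) =
          Real.exp (b ^ 2 / 2) * Real.exp (S1.card * b ^ 2 / 2) := by
        rw [← Real.exp_add]; congr 1; push_cast; ring
      rw [h3]; ring
    · intro j hj T hT hjT
      have hja : j ≠ a := fun h => ha (h ▸ hj)
      have h1 := hb j (Finset.mem_insert_of_mem hj) T
        (by rw [Finset.union_insert]; exact hT.trans (Finset.subset_insert _ _)) hjT
      have h2 := hb j (Finset.mem_insert_of_mem hj) (insert a T)
        (by rw [Finset.union_insert]; exact Finset.insert_subset_insert _ hT)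
        (by rw [Finset.mem_insert]; tauto)
      rw [Finset.insert_comm] at h2
      rw [abs_le] at h1 h2 ⊢
      constructor <;> linarith [h1.1, h1.2, h2.1, h2.2]
    · intro T0 hT0
      have h1 := hm T0 hT0
      rw [Finset.sum_powerset_insert ha] at h1
      rw [← Finset.sum_div, Finset.sum_add_distrib]
      simp only [Finset.union_insert] at h1
      rw [h1, zero_div]

theorem tail (S0 S1 : Finset ℕ) (hd : Disjoint S0 S1) (b V t : ℝ) (hV : S1.card * b ^ 2 ≤ V)
    (hV0 : 0 < V) (ht : 0 < t) (G : Finset ℕ → ℝ)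
    (hb : ∀ j ∈ S1, ∀ T ⊆ S0 ∪ S1, j ∉ T → |G (insert j T) - G T| ≤ 2 * b)
    (hm : ∀ T0 ⊆ S0, ∑ T1 ∈ S1.powerset, G (T0 ∪ T1) = 0) :
    (((S0 ∪ S1).powerset.filter (fun T => t ≤ |G T|)).card : ℝ) ≤
      2 * 2 ^ (S0.card + S1.card) * Real.exp (-(t ^ 2 / (2 * V))) := by
  have key : ∀ σ : ℝ, |σ| = t / V →
      ∑ T ∈ (S0 ∪ S1).powerset, Real.exp (σ * G T) ≤
        2 ^ (S0.card + S1.card) * Real.exp (t ^ 2 / (2 * V)) := by
    intro σ hσ
    have h1 := mgf S0 S1 hd (t / V * b) (fun T => σ * G T) ?_ ?_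
    · refine h1.trans (mul_le_mul_of_nonneg_left (Real.exp_le_exp.2 ?_) (by positivity))
      have h2 : (S1.card : ℝ) * (t / V * b) ^ 2 / 2 = (S1.card * b ^ 2) * (t / V) ^ 2 / 2 := by ring
      rw [h2]
      have h3 : (S1.card * b ^ 2) * (t / V) ^ 2 ≤ V * (t / V) ^ 2 :=
        mul_le_mul_of_nonneg_right hV (by positivity)
      have h4 : V * (t / V) ^ 2 / 2 = t ^ 2 / (2 * V) := by
        field_simp
      linarith
    · intro j hj T hT hjT
      have h2 := hb j hj T hT hjT
      rw [← mul_sub, abs_mul, hσ]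
      have h3 : 0 ≤ t / V := by positivity
      nlinarith
    · intro T0 hT0
      rw [← Finset.mul_sum, hm T0 hT0, mul_zero]
  have h1 := key (t / V) (abs_of_pos (by positivity))
  have h2 := key (-(t / V)) (by rw [abs_neg]; exact abs_of_pos (by positivity))
  have h3 : (((S0 ∪ S1).powerset.filter (fun T => t ≤ |G T|)).card : ℝ) * Real.exp (t ^ 2 / V) ≤
      ∑ T ∈ (S0 ∪ S1).powerset, (Real.exp (t / V * G T) + Real.exp (-(t / V) * G T)) := by
    rw [← nsmul_eq_mul, ← Finset.sum_const]
    refine (Finset.sum_le_sum ?_).trans (Finset.sum_le_sum_of_subset_of_nonneg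
      (Finset.filter_subset _ _) (fun _ _ _ => by positivity))
    intro T hT
    have hT2 := (Finset.mem_filter.1 hT).2
    have e : t ^ 2 / V = t / V * t := by ring
    have h0 : 0 < t / V := by positivity
    rcases le_abs.1 hT2 with h | h
    · have : Real.exp (t ^ 2 / V) ≤ Real.exp (t / V * G T) := by
        apply Real.exp_le_exp.2; rw [e]; exact mul_le_mul_of_nonneg_left h h0.le
      have := Real.exp_pos (-(t / V) * G T)
      linarith
    · have : Real.exp (t ^ 2 / V) ≤ Real.exp (-(t / V) * G T) := by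
        apply Real.exp_le_exp.2; rw [e]; nlinarith
      have := Real.exp_pos (t / V * G T)
      linarith
  rw [Finset.sum_add_distrib] at h3
  have h4 : (((S0 ∪ S1).powerset.filter (fun T => t ≤ |G T|)).card : ℝ) * Real.exp (t ^ 2 / V) ≤
      2 * 2 ^ (S0.card + S1.card) * Real.exp (t ^ 2 / (2 * V)) := by linarith
  have e1 : Real.exp (t ^ 2 / (2 * V)) = Real.exp (-(t ^ 2 / (2 * V))) * Real.exp (t ^ 2 / V) := by
    rw [← Real.exp_add]; congr 1; field_simp; ring
  rw [e1] at h4
  have h5 := Real.exp_pos (t ^ 2 / V)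
  nlinarith

end Pool.Agent.K9h39.CD
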