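import Mathlib

set_option autoImplicit false

/-! Counting prime powers. -/

namespace Pool.Agent.K9h39.CD

open Finset

/-- the number of prime powers up to `2 ^ i` -/
noncomputable def pc (i : ℕ) : ℕ := Nat.count IsPrimePow (2 ^ i + 1)

theorem pc_mono {i j : ℕ} (h : i ≤ j) : pc i ≤ pc j := by
  apply Nat.count_monotone
  have := Nat.pow_le_pow_right (n := 2) (by norm_num) h
  omega

theorem ipp_infinite : (Set.ofPred (IsPrimePow : ℕ → Prop)).Infinite :=
  Set.Infinite.mono (fun _ hp => Nat.Prime.isPrimePow hp) Nat.infinite_setOfPred_prime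

theorem count_lt_pc {x i : ℕ} (hx : IsPrimePow x) : Nat.count IsPrimePow x < pc i ↔ x ≤ 2 ^ i := by
  constructor
  · intro h
    by_contra hc
    have : pc i ≤ Nat.count IsPrimePow x := Nat.count_monotone _ (by omega)
    omega
  · intro h
    exact Nat.count_strict_mono hx (by omega)

theorem pc_card (i : ℕ) : pc i = ((range (2 ^ i + 1)).filter IsPrimePow).card := by
  rw [pc, Nat.count_eq_card_filter_range]

theorem pi_le_pc (i : ℕ) : Nat.primeCounting (2 ^ i) ≤ pc i := by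
  rw [pc_card, Nat.primeCounting, Nat.primeCounting', Nat.count_eq_card_filter_range]
  apply Finset.card_le_card
  intro x hx
  rw [Finset.mem_filter] at hx ⊢
  exact ⟨hx.1, hx.2.isPrimePow⟩

theorem pc_le (i : ℕ) : pc i ≤ Nat.primeCounting (2 ^ i) + Nat.sqrt (2 ^ i) * i := by
  rw [pc_card, Nat.primeCounting, Nat.primeCounting', Nat.count_eq_card_filter_range]
  have hsub : (range (2 ^ i + 1)).filter IsPrimePow ⊆
      (range (2 ^ i + 1)).filter Nat.Prime ∪
      ((Icc 1 (Nat.sqrt (2 ^ i)) ×ˢ Icc 1 i).image (fun z => z.1 ^ z.2)) := by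
    intro x hx
    rw [Finset.mem_filter, Finset.mem_range] at hx
    rw [Finset.mem_union]
    obtain ⟨hx1, hx2⟩ := hx
    obtain ⟨p, a, hp, ha, rfl⟩ := (isPrimePow_nat_iff x).1 hx2
    rcases Nat.lt_or_ge a 2 with h | h
    · left
      have : a = 1 := by omega
      subst this
      rw [Finset.mem_filter, Finset.mem_range]
      exact ⟨hx1, by rw [pow_one]; exact hp⟩
    · right
      rw [Finset.mem_image]
      refine ⟨(p, a), ?_, rfl⟩
      rw [Finset.mem_product, Finset.mem_Icc, Finset.mem_Icc]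
      have h2 := hp.two_le
      refine ⟨⟨hp.one_le, ?_⟩, by omega, ?_⟩
      · rw [Nat.le_sqrt, ← pow_two]
        have h4 : p ^ 2 ≤ p ^ a := Nat.pow_le_pow_right (by omega) h
        change p ^ 2 ≤ 2 ^ i
        omega
      · have h3 : 2 ^ a ≤ 2 ^ i := (Nat.pow_le_pow_left h2 a).trans (by omega)
        exact (Nat.pow_le_pow_iff_right (by norm_num)).1 h3
  refine (Finset.card_le_card hsub).trans ((Finset.card_union_le _ _).trans ?_)
  apply Nat.add_le_add_left
  refine Finset.card_image_le.trans ?_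
  rw [Finset.card_product, Nat.card_Icc, Nat.card_Icc]
  simp

theorem sq_le_pow (i : ℕ) : (i * (i + 1)) ^ 2 ≤ 36 * 2 ^ i := by
  rcases Nat.lt_or_ge i 5 with h | h
  · interval_cases i <;> norm_num
  · induction i, h using Nat.le_induction with
    | base => norm_num
    | succ i hi ih =>
      have h1 : (i + 2) ^ 2 ≤ 2 * i ^ 2 := by nlinarith
      calc ((i + 1) * (i + 1 + 1)) ^ 2 = (i + 2) ^ 2 * (i + 1) ^ 2 := by ring
        _ ≤ 2 * i ^ 2 * (i + 1) ^ 2 := Nat.mul_le_mul_right _ h1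
        _ = 2 * (i * (i + 1)) ^ 2 := by ring
        _ ≤ 2 * (36 * 2 ^ i) := Nat.mul_le_mul_left _ ih
        _ = 36 * 2 ^ (i + 1) := by ring

theorem pc_upper (i : ℕ) : (i : ℝ) * pc i ≤ 10 * 2 ^ i := by
  rcases Nat.eq_zero_or_pos i with rfl | hi
  · simp
  have hi' : (1 : ℝ) ≤ i := by exact_mod_cast hi
  have hx : (1 : ℝ) < 2 ^ i := one_lt_pow₀ (by norm_num) (by omega)
  have h1 := Chebyshev.pi_le_log4_mul_div hx
  have hfl : ⌊(2 : ℝ) ^ i⌋₊ = 2 ^ i := by
    have : ((2 : ℝ) ^ i) = ((2 ^ i : ℕ) : ℝ) := by push_cast; rfl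
    rw [this, Nat.floor_natCast]
  rw [hfl] at h1
  set s : ℝ := √((2 : ℝ) ^ i) with hs
  have hs0 : 0 ≤ s := Real.sqrt_nonneg _
  have hss : s * s = 2 ^ i := Real.mul_self_sqrt (by positivity)
  have hlog : Real.log s = i * Real.log 2 / 2 := by
    rw [hs, Real.log_sqrt (by positivity), Real.log_pow]
  have hl2 : 0 < Real.log 2 := Real.log_pos (by norm_num)
  have hl4 : Real.log 4 = 2 * Real.log 2 := by
    rw [show (4 : ℝ) = 2 ^ 2 by norm_num, Real.log_pow]; norm_num
  have h2 : Real.log 4 * 2 ^ i / Real.log s = 4 * 2 ^ i / i := by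
    rw [hlog, hl4]; field_simp; norm_num
  rw [h2] at h1
  have h3 : (pc i : ℝ) ≤ Nat.primeCounting (2 ^ i) + Nat.sqrt (2 ^ i) * i := by
    exact_mod_cast pc_le i
  have h4 : ((Nat.sqrt (2 ^ i) : ℕ) : ℝ) ≤ s := by
    have := Real.nat_sqrt_le_real_sqrt (a := 2 ^ i)
    push_cast at this
    exact this
  have h5 : (pc i : ℝ) ≤ 4 * 2 ^ i / i + s + s * i := by
    have : ((Nat.sqrt (2 ^ i) : ℕ) : ℝ) * i ≤ s * i := mul_le_mul_of_nonneg_right h4 (by linarith)
    linarith
  have h6 : (i : ℝ) * (i + 1) ≤ 6 * s := by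
    have h7 : ((i : ℝ) * (i + 1)) ^ 2 ≤ (6 * s) ^ 2 := by
      have h8 : ((i * (i + 1)) ^ 2 : ℝ) ≤ 36 * 2 ^ i := by exact_mod_cast sq_le_pow i
      calc ((i : ℝ) * (i + 1)) ^ 2 ≤ 36 * 2 ^ i := h8
        _ = (6 * s) ^ 2 := by rw [← hss]; ring
    exact (pow_le_pow_iff_left₀ (by positivity) (by positivity) (by norm_num)).1 h7
  calc (i : ℝ) * pc i ≤ i * (4 * 2 ^ i / i + s + s * i) := mul_le_mul_of_nonneg_left h5 (by linarith)
    _ = 4 * 2 ^ i + (i * (i + 1)) * s := by field_simp; ring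
    _ ≤ 4 * 2 ^ i + (6 * s) * s := by
        have := mul_le_mul_of_nonneg_right h6 hs0
        linarith
    _ = 10 * 2 ^ i := by rw [mul_assoc, hss]; ring

theorem two_pow_ge (i : ℕ) (h : 2 ≤ i) : 4 * (i + 1) ≤ 3 * 2 ^ i := by
  induction i, h using Nat.le_induction with
  | base => norm_num
  | succ i hi ih => rw [pow_succ]; omega

theorem pc_lower (i : ℕ) (hi : 2 ≤ i) : (2 : ℝ) ^ i ≤ 4 * i * pc i := by
  have h1 := Chebyshev.pi_ge (2 ^ i)
  have hl2 : 0 < Real.log 2 := Real.log_pos (by norm_num)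
  have hi' : (2 : ℝ) ≤ i := by exact_mod_cast hi
  have hpi : (Nat.primeCounting (2 ^ i) : ℝ) ≤ pc i := by exact_mod_cast pi_le_pc i
  push_cast at h1
  rw [Real.log_pow] at h1
  have h2 : Real.log ((2 : ℝ) ^ i + 1) ≤ (i + 1) * Real.log 2 := by
    have : ((i : ℝ) + 1) * Real.log 2 = Real.log (2 ^ (i + 1)) := by
      rw [Real.log_pow]; push_cast; ring
    rw [this]
    apply Real.log_le_log (by positivity)
    rw [pow_succ]
    have : (1 : ℝ) ≤ 2 ^ i := one_le_pow₀ (by norm_num)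
    linarith
  have h3 : ((2 : ℝ) ^ i - (i + 1)) / i ≤ pc i := by
    refine le_trans ?_ (h1.trans hpi)
    rw [div_le_div_iff₀ (by linarith) (by positivity)]
    nlinarith
  rw [div_le_iff₀ (by linarith)] at h3
  have h4 : (4 : ℝ) * (i + 1) ≤ 3 * 2 ^ i := by exact_mod_cast two_pow_ge i hi
  linarith

end Pool.Agent.K9h39.CD
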