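import Mathlib
import Pool.Agent.H370R2.NT

set_option autoImplicit false

/-! Integers all of whose exact prime power components are small. -/

namespace Pool.Agent.K9h39.CD

open Finset

/-- all prime power components of `n` are at most `y` -/
def Sm (y n : ℕ) : Prop := ∀ p ∈ n.primeFactors, p ^ n.factorization p ≤ y

noncomputable instance (y : ℕ) : DecidablePred (Sm y) := fun _ => Classical.dec _

theorem Sm.mono {y z n : ℕ} (h : Sm y n) (hyz : y ≤ z) : Sm z n := fun p hp => (h p hp).trans hyz

theorem log_le_of_Sm {y n : ℕ} (hn : n ≠ 0) (h : Sm y n) :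
    Real.log n ≤ ∑ d ∈ Icc 1 y, if d ∣ n then ArithmeticFunction.vonMangoldt d else 0 := by
  rw [← ArithmeticFunction.vonMangoldt_sum, ← Finset.sum_filter,
    ← Finset.sum_filter_ne_zero (s := n.divisors)]
  refine Finset.sum_le_sum_of_subset_of_nonneg ?_
    (fun _ _ _ => ArithmeticFunction.vonMangoldt_nonneg)
  intro d hd
  rw [Finset.mem_filter, Nat.mem_divisors] at hd
  obtain ⟨⟨hdn, -⟩, hne⟩ := hd
  rw [ArithmeticFunction.vonMangoldt_ne_zero_iff] at hne
  obtain ⟨p, a, hp, ha, rfl⟩ := (isPrimePow_nat_iff d).1 hne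
  rw [Finset.mem_filter, Finset.mem_Icc]
  refine ⟨⟨Nat.pos_of_ne_zero (by have := hp.ne_zero; positivity), ?_⟩, hdn⟩
  have hpn : p ∣ n := (dvd_pow_self p (by omega)).trans hdn
  have h1 : a ≤ n.factorization p := (hp.pow_dvd_iff_le_factorization hn).1 hdn
  exact (Nat.pow_le_pow_right hp.pos h1).trans
    (h p (Nat.mem_primeFactors.2 ⟨hp, hpn, hn⟩))

theorem card_dvd_le (S : Finset ℕ) (M d : ℕ) (hS : S ⊆ Icc 1 M) :
    ((S.filter (fun n => d ∣ n)).card : ℝ) ≤ M / d := by
  have h1 : (S.filter (fun n => d ∣ n)).card ≤ M / d := by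
    rw [← Nat.Ioc_filter_dvd_card_eq_div]
    apply Finset.card_le_card
    intro n hn
    rw [Finset.mem_filter] at hn ⊢
    have := Finset.mem_Icc.1 (hS hn.1)
    exact ⟨Finset.mem_Ioc.2 ⟨by omega, this.2⟩, hn.2⟩
  calc ((S.filter (fun n => d ∣ n)).card : ℝ) ≤ ((M / d : ℕ) : ℝ) := by exact_mod_cast h1
    _ ≤ M / d := Nat.cast_div_le

theorem smooth_card (M y : ℕ) (hM : 1 ≤ M) (hy : 1 ≤ y) :
    (((Icc 1 M).filter (Sm y)).card : ℝ) * (Real.log M / 2) ≤
      √M * (Real.log M / 2) + M * (Real.log y + 6) := by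
  classical
  set S := (Icc 1 M).filter (Sm y) with hS
  have hM' : (0 : ℝ) < M := by exact_mod_cast hM
  have hlogM : 0 ≤ Real.log M := Real.log_nonneg (by exact_mod_cast hM)
  have hSM : S ⊆ Icc 1 M := Finset.filter_subset _ _
  have h1 : ∑ n ∈ S, Real.log n ≤ M * (Real.log y + 6) := by
    calc ∑ n ∈ S, Real.log n
        ≤ ∑ n ∈ S, ∑ d ∈ Icc 1 y, if d ∣ n then ArithmeticFunction.vonMangoldt d else 0 := by
          refine Finset.sum_le_sum fun n hn => ?_
          have h2 := Finset.mem_filter.1 hn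
          have h3 := Finset.mem_Icc.1 h2.1
          exact log_le_of_Sm (by omega) h2.2
      _ = ∑ d ∈ Icc 1 y, ArithmeticFunction.vonMangoldt d * ((S.filter (fun n => d ∣ n)).card : ℝ) := by
          rw [Finset.sum_comm]
          refine Finset.sum_congr rfl fun d _ => ?_
          rw [← Finset.sum_filter, Finset.sum_const, nsmul_eq_mul, mul_comm]
      _ ≤ ∑ d ∈ Icc 1 y, M * (ArithmeticFunction.vonMangoldt d / d) := by
          refine Finset.sum_le_sum fun d _ => ?_
          have h4 := card_dvd_le S M d hSM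
          have h5 := mul_le_mul_of_nonneg_left h4 (ArithmeticFunction.vonMangoldt_nonneg (n := d))
          refine h5.trans (le_of_eq ?_)
          ring
      _ = M * ∑ d ∈ Icc 1 y, ArithmeticFunction.vonMangoldt d / d := by rw [Finset.mul_sum]
      _ ≤ M * (Real.log y + 6) :=
          mul_le_mul_of_nonneg_left (H370.nt_mertens_upper y hy) hM'.le
  have h2 : (S.card : ℝ) * (Real.log M / 2) - √M * (Real.log M / 2) ≤ ∑ n ∈ S, Real.log n := by
    have h3 : ∀ n ∈ S, Real.log M / 2 - (if n * n ≤ M then Real.log M / 2 else 0) ≤ Real.log n := by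
      intro n hn
      have hn1 := (Finset.mem_Icc.1 (hSM hn)).1
      have hn1' : (1 : ℝ) ≤ n := by exact_mod_cast hn1
      split_ifs with h
      · rw [sub_self]; exact Real.log_nonneg hn1'
      · rw [sub_zero]
        have h4 : Real.log M ≤ Real.log ((n : ℝ) * n) := by
          apply Real.log_le_log hM'
          push Not at h
          exact_mod_cast h.le
        rw [Real.log_mul (by positivity) (by positivity)] at h4
        linarith
    have h4 := Finset.sum_le_sum h3
    rw [Finset.sum_sub_distrib, Finset.sum_const, nsmul_eq_mul, ← Finset.sum_filter,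
      Finset.sum_const, nsmul_eq_mul] at h4
    have h5 : ((S.filter (fun n => n * n ≤ M)).card : ℝ) ≤ √M := by
      have h6 : (S.filter (fun n => n * n ≤ M)).card ≤ Nat.sqrt M := by
        have : S.filter (fun n => n * n ≤ M) ⊆ Icc 1 (Nat.sqrt M) := by
          intro n hn
          rw [Finset.mem_filter] at hn
          rw [Finset.mem_Icc]
          exact ⟨(Finset.mem_Icc.1 (hSM hn.1)).1, Nat.le_sqrt.2 hn.2⟩
        simpa using Finset.card_le_card this
      exact (by exact_mod_cast h6 : ((S.filter (fun n => n * n ≤ M)).card : ℝ) ≤ (Nat.sqrt M : ℕ)).trans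
        Real.nat_sqrt_le_real_sqrt
    have h7 := mul_le_mul_of_nonneg_right h5 (by positivity : 0 ≤ Real.log M / 2)
    linarith
  linarith

end Pool.Agent.K9h39.CD
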