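import Mathlib
import Pool.Agent.K9h39.CD.A
import Pool.Agent.K9h39.CD.B
import Pool.Agent.K9h39.CD.C

set_option autoImplicit false

/-! The partial correlation sums as functions of the digits. -/

namespace Pool.Agent.K9h39.CD

open Finset

/-- the sign of the prime power `x` when the digits in `T` are `-1` -/
noncomputable def sg (T : Finset ℕ) (x : ℕ) : ℝ := if Nat.count IsPrimePow x ∈ T then -1 else 1

/-- index set of the exact prime power components of the `n + h` -/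
def Zn (H : Finset ℕ) (n : ℕ) : Finset (Σ _ : ℕ, ℕ) := H.sigma (fun h => (n + h).primeFactors)

/-- the component -/
def cp (n : ℕ) (z : Σ _ : ℕ, ℕ) : ℕ := z.2 ^ (n + z.1).factorization z.2

noncomputable def wv (H : Finset ℕ) (n : ℕ) (T : Finset ℕ) : ℝ := ∏ z ∈ Zn H n, sg T (cp n z)

noncomputable def Ai (H : Finset ℕ) (N i : ℕ) : Finset ℕ :=
  (Icc 1 N).filter (fun n => ∀ h ∈ H, Sm (2 ^ i) (n + h))

noncomputable def PP (H : Finset ℕ) (N i : ℕ) (T : Finset ℕ) : ℝ := ∑ n ∈ Ai H N i, wv H n T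

noncomputable def Dl (H : Finset ℕ) (N i : ℕ) (T : Finset ℕ) : ℝ := PP H N (i + 1) T - PP H N i T

theorem abs_sg (T : Finset ℕ) (x : ℕ) : |sg T x| = 1 := by
  unfold sg; split_ifs <;> simp

theorem abs_wv (H : Finset ℕ) (n : ℕ) (T : Finset ℕ) : |wv H n T| = 1 := by
  unfold wv
  rw [Finset.abs_prod]
  exact Finset.prod_eq_one fun z _ => abs_sg T _

theorem Ai_mono (H : Finset ℕ) (N i : ℕ) : Ai H N i ⊆ Ai H N (i + 1) := by
  intro n hn
  unfold Ai at hn ⊢
  rw [Finset.mem_filter] at hn ⊢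
  exact ⟨hn.1, fun h hh => (hn.2 h hh).mono (Nat.pow_le_pow_right (by norm_num) (by omega))⟩

theorem Dl_eq (H : Finset ℕ) (N i : ℕ) (T : Finset ℕ) :
    Dl H N i T = ∑ n ∈ Ai H N (i + 1) \ Ai H N i, wv H n T := by
  unfold Dl PP
  rw [← Finset.sum_sdiff (Ai_mono H N i)]
  ring

theorem mem_Zn {H : Finset ℕ} {n : ℕ} {z : Σ _ : ℕ, ℕ} (hz : z ∈ Zn H n) :
    z.1 ∈ H ∧ z.2.Prime ∧ z.2 ∣ n + z.1 ∧ n + z.1 ≠ 0 := by
  unfold Zn at hz
  rw [Finset.mem_sigma, Nat.mem_primeFactors] at hz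
  exact ⟨hz.1, hz.2.1, hz.2.2.1, hz.2.2.2⟩

theorem cp_pp {H : Finset ℕ} {n : ℕ} {z : Σ _ : ℕ, ℕ} (hz : z ∈ Zn H n) : IsPrimePow (cp n z) := by
  obtain ⟨-, h2, h3, h4⟩ := mem_Zn hz
  unfold cp
  exact h2.isPrimePow.pow (h2.factorization_pos_of_dvd h4 h3).ne'

theorem cp_dvd {n : ℕ} (z : Σ _ : ℕ, ℕ) : cp n z ∣ n + z.1 := Nat.ordProj_dvd _ _

theorem count_inj {x y : ℕ} (hx : IsPrimePow x) (hy : IsPrimePow y)
    (h : Nat.count IsPrimePow x = Nat.count IsPrimePow y) : x = y := by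
  rw [← Nat.nth_count hx, ← Nat.nth_count hy, h]

theorem cp_unique {H : Finset ℕ} {n i : ℕ} (hH : ∀ h ∈ H, h ≤ 2 ^ i) {z w : Σ _ : ℕ, ℕ}
    (hz : z ∈ Zn H n) (hw : w ∈ Zn H n) (hzw : cp n z = cp n w) (hbig : 2 ^ i < cp n z) : z = w := by
  obtain ⟨z1, z2, z3, z4⟩ := mem_Zn hz
  obtain ⟨w1, w2, w3, w4⟩ := mem_Zn hw
  have h1 : z.1 = w.1 := by
    have e1 : n + z.1 ≡ n + w.1 [MOD cp n z] := by
      have a1 : n + z.1 ≡ 0 [MOD cp n z] := (Nat.modEq_zero_iff_dvd).2 (cp_dvd z)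
      have a2 : n + w.1 ≡ 0 [MOD cp n z] := (Nat.modEq_zero_iff_dvd).2 (hzw ▸ cp_dvd w)
      exact a1.trans a2.symm
    have e2 : z.1 ≡ w.1 [MOD cp n z] := Nat.ModEq.add_left_cancel' n e1
    exact Nat.ModEq.eq_of_lt_of_lt e2 ((hH _ z1).trans_lt hbig) ((hH _ w1).trans_lt hbig)
  have h2 : z.2 = w.2 := by
    have hpos : 0 < (n + z.1).factorization z.2 := z2.factorization_pos_of_dvd z4 z3
    have hd : z.2 ∣ cp n w := by
      rw [← hzw]; exact dvd_pow_self _ hpos.ne'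
    exact (Nat.prime_dvd_prime_iff_eq z2 w2).1 (z2.dvd_of_dvd_pow hd)
  obtain ⟨a, b⟩ := z
  obtain ⟨c, d⟩ := w
  simp only at h1 h2
  subst h1; subst h2; rfl

theorem flip_none {H : Finset ℕ} {n j : ℕ} (T : Finset ℕ)
    (h : ∀ z ∈ Zn H n, Nat.count IsPrimePow (cp n z) ≠ j) : wv H n (insert j T) = wv H n T := by
  unfold wv
  refine Finset.prod_congr rfl fun z hz => ?_
  unfold sg
  have h1 := h z hz
  by_cases h2 : Nat.count IsPrimePow (cp n z) ∈ T
  · rw [if_pos h2, if_pos (Finset.mem_insert_of_mem h2)]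
  · rw [if_neg h2, if_neg (by rw [Finset.mem_insert]; tauto)]

theorem flip_one {H : Finset ℕ} {n i j : ℕ} (hH : ∀ h ∈ H, h ≤ 2 ^ i) (T : Finset ℕ) (hj : j ∉ T)
    (hji : pc i ≤ j) (h : ∃ z ∈ Zn H n, Nat.count IsPrimePow (cp n z) = j) :
    wv H n (insert j T) = -wv H n T := by
  classical
  obtain ⟨z, hz, hzj⟩ := h
  have hbig : 2 ^ i < cp n z := by
    by_contra hc
    have := (count_lt_pc (cp_pp hz)).2 (by omega : cp n z ≤ 2 ^ i)
    omega
  unfold wv
  rw [← Finset.mul_prod_erase _ _ hz, ← Finset.mul_prod_erase (Zn H n) (fun z => sg T (cp n z)) hz]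
  have h1 : sg (insert j T) (cp n z) = -1 := by
    unfold sg; rw [if_pos]; rw [hzj]; exact Finset.mem_insert_self _ _
  have h2 : sg T (cp n z) = 1 := by
    unfold sg; rw [if_neg]; rw [hzj]; exact hj
  have h3 : ∏ w ∈ (Zn H n).erase z, sg (insert j T) (cp n w) =
      ∏ w ∈ (Zn H n).erase z, sg T (cp n w) := by
    refine Finset.prod_congr rfl fun w hw => ?_
    rw [Finset.mem_erase] at hw
    have hne : Nat.count IsPrimePow (cp n w) ≠ j := by
      intro hc
      apply hw.1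
      have e : cp n z = cp n w := count_inj (cp_pp hz) (cp_pp hw.2) (by rw [hzj, hc])
      exact (cp_unique hH hz hw.2 e hbig).symm
    unfold sg
    by_cases h4 : Nat.count IsPrimePow (cp n w) ∈ T
    · rw [if_pos h4, if_pos (Finset.mem_insert_of_mem h4)]
    · rw [if_neg h4, if_neg (by rw [Finset.mem_insert]; tauto)]
  rw [h1, h2, h3]; ring

/-- the digits of the block -/
noncomputable def blk (i : ℕ) : Finset ℕ := Ico (pc i) (pc (i + 1))

theorem blk_disj (i : ℕ) : Disjoint (range (pc i)) (blk i) := by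
  rw [Finset.disjoint_left]
  intro x hx hx2
  unfold blk at hx2
  rw [Finset.mem_range] at hx
  rw [Finset.mem_Ico] at hx2
  omega

theorem blk_union (i : ℕ) : range (pc i) ∪ blk i = range (pc (i + 1)) := by
  have := pc_mono (Nat.le_succ i)
  ext x
  unfold blk
  rw [Finset.mem_union, Finset.mem_range, Finset.mem_Ico, Finset.mem_range]
  simp only [Nat.succ_eq_add_one] at this
  omega

/-- partial mean zero -/
theorem mean_zero {H : Finset ℕ} {N i : ℕ} (hH : ∀ h ∈ H, h ≤ 2 ^ i) (T0 : Finset ℕ)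
    (hT0 : T0 ⊆ range (pc i)) : ∑ T1 ∈ (blk i).powerset, Dl H N i (T0 ∪ T1) = 0 := by
  classical
  simp only [Dl_eq]
  rw [Finset.sum_comm]
  refine Finset.sum_eq_zero fun n hn => ?_
  rw [Finset.mem_sdiff] at hn
  obtain ⟨hn1, hn2⟩ := hn
  unfold Ai at hn1 hn2
  rw [Finset.mem_filter] at hn1 hn2
  have hn3 : ¬ ∀ h ∈ H, Sm (2 ^ i) (n + h) := fun hc => hn2 ⟨hn1.1, hc⟩
  push Not at hn3
  obtain ⟨h, hh, hS⟩ := hn3
  unfold Sm at hS
  push Not at hS
  obtain ⟨p, hp, hbig⟩ := hS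
  set z : Σ _ : ℕ, ℕ := ⟨h, p⟩ with hz
  have hzZ : z ∈ Zn H n := by
    unfold Zn; rw [Finset.mem_sigma]; exact ⟨hh, hp⟩
  have hcz : 2 ^ i < cp n z := hbig
  have hcz2 : cp n z ≤ 2 ^ (i + 1) := hn1.2 h hh p hp
  set j := Nat.count IsPrimePow (cp n z) with hj
  have hj1 : pc i ≤ j := by
    by_contra hc
    have := (count_lt_pc (cp_pp hzZ)).1 (by omega : j < pc i)
    omega
  have hj2 : j < pc (i + 1) := (count_lt_pc (cp_pp hzZ)).2 hcz2
  have hjb : j ∈ blk i := by unfold blk; rw [Finset.mem_Ico]; exact ⟨hj1, hj2⟩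
  rw [← Finset.insert_erase hjb, Finset.sum_powerset_insert (Finset.notMem_erase _ _),
    ← Finset.sum_add_distrib]
  refine Finset.sum_eq_zero fun T1 hT1 => ?_
  rw [Finset.mem_powerset] at hT1
  rw [Finset.union_insert, flip_one hH (T0 ∪ T1) ?_ hj1 ⟨z, hzZ, rfl⟩]
  · ring
  · rw [Finset.mem_union]
    push Not
    constructor
    · intro hc
      have := Finset.mem_range.1 (hT0 hc)
      omega
    · intro hc
      exact Finset.notMem_erase _ _ (hT1 hc)

theorem card_shift_dvd (N h x : ℕ) (hx : 0 < x) :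
    ((Icc 1 N).filter (fun n => x ∣ n + h)).card ≤ N / x + 1 := by
  classical
  have h1 : ((Icc 1 N).filter (fun n => x ∣ n + h)).card ≤
      (Icc (h / x + 1) ((N + h) / x)).card := by
    apply Finset.card_le_card_of_injOn (fun n => (n + h) / x)
    · intro n hn
      rw [Finset.mem_coe, Finset.mem_filter, Finset.mem_Icc] at hn
      rw [Finset.mem_coe, Finset.mem_Icc]
      obtain ⟨⟨hn1, hn2⟩, c, hc⟩ := hn
      have e : (n + h) / x = c := by rw [hc]; exact Nat.mul_div_cancel_left c hx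
      refine ⟨?_, Nat.div_le_div_right (by omega)⟩
      simp only [e]
      have : h / x < c := by
        rw [Nat.div_lt_iff_lt_mul hx]
        rw [mul_comm c x]; omega
      omega
    · intro a ha b hb hab
      rw [Finset.mem_coe, Finset.mem_filter] at ha hb
      obtain ⟨_, c, hc⟩ := ha
      obtain ⟨_, d, hd⟩ := hb
      simp only at hab
      rw [hc, hd, Nat.mul_div_cancel_left c hx, Nat.mul_div_cancel_left d hx] at hab
      subst hab
      omega
  refine h1.trans ?_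
  rw [Nat.card_Icc]
  have h2 : (N + h) / x ≤ N / x + h / x + 1 := by
    rw [Nat.add_div hx]
    split_ifs <;> omega
  generalize (N + h) / x = w at *
  generalize N / x = u at *
  generalize h / x = v at *
  omega

/-- bounded differences -/
theorem bdd_diff {H : Finset ℕ} {N i k : ℕ} (hH : ∀ h ∈ H, h ≤ 2 ^ i) (hk : H.card ≤ k)
    (hN : 2 ^ (i + 1) ≤ 4 * N) :
    ∀ j ∈ blk i, ∀ T ⊆ range (pc i) ∪ blk i, j ∉ T →
      |Dl H N i (insert j T) - Dl H N i T| ≤ 2 * (3 * k * N / 2 ^ i) := by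
  classical
  intro j hj T _ hjT
  unfold blk at hj
  rw [Finset.mem_Ico] at hj
  set x := Nat.nth IsPrimePow j with hx
  have hxp : IsPrimePow x := Nat.nth_mem_of_infinite ipp_infinite j
  have hxc : Nat.count IsPrimePow x = j := Nat.count_nth_of_infinite ipp_infinite j
  have hxbig : 2 ^ i < x := by
    by_contra hc
    have := (count_lt_pc hxp).2 (by omega : x ≤ 2 ^ i)
    omega
  have hterm : ∀ n ∈ Ai H N (i + 1) \ Ai H N i, |wv H n (insert j T) - wv H n T| ≤
      ∑ h ∈ H, if x ∣ n + h then (2 : ℝ) else 0 := by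
    intro n _
    by_cases hc : ∀ z ∈ Zn H n, Nat.count IsPrimePow (cp n z) ≠ j
    · rw [flip_none T hc, sub_self, abs_zero]
      exact Finset.sum_nonneg fun _ _ => by split_ifs <;> norm_num
    · push Not at hc
      obtain ⟨z, hz, hzj⟩ := hc
      have hzx : cp n z = x := count_inj (cp_pp hz) hxp (by rw [hzj, hxc])
      have h1 : |wv H n (insert j T) - wv H n T| ≤ 2 := by
        have a := abs_wv H n (insert j T)
        have b := abs_wv H n T
        have := abs_sub (wv H n (insert j T)) (wv H n T)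
        linarith
      refine h1.trans ?_
      have h2 := Finset.single_le_sum (f := fun h => if x ∣ n + h then (2 : ℝ) else 0)
        (fun h _ => by split_ifs <;> norm_num) (mem_Zn hz).1
      rw [if_pos (hzx ▸ cp_dvd z)] at h2
      exact h2
  rw [Dl_eq, Dl_eq, ← Finset.sum_sub_distrib]
  have h2i : (0 : ℝ) < 2 ^ i := by positivity
  have hN1 : (1 : ℝ) ≤ 2 * N / 2 ^ i := by
    rw [le_div_iff₀ h2i]
    have : ((2 : ℝ) ^ (i + 1)) ≤ 4 * N := by exact_mod_cast hN
    rw [pow_succ] at this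
    linarith
  have hNx : ((N / x : ℕ) : ℝ) ≤ N / 2 ^ i := by
    refine (Nat.cast_div_le).trans ?_
    have : (2 : ℝ) ^ i ≤ x := by exact_mod_cast hxbig.le
    exact div_le_div_of_nonneg_left (Nat.cast_nonneg _) h2i this
  calc |∑ n ∈ Ai H N (i + 1) \ Ai H N i, (wv H n (insert j T) - wv H n T)|
      ≤ ∑ n ∈ Ai H N (i + 1) \ Ai H N i, |wv H n (insert j T) - wv H n T| :=
        Finset.abs_sum_le_sum_abs _ _
    _ ≤ ∑ n ∈ Ai H N (i + 1) \ Ai H N i, ∑ h ∈ H, (if x ∣ n + h then (2 : ℝ) else 0) :=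
        Finset.sum_le_sum hterm
    _ ≤ ∑ n ∈ Icc 1 N, ∑ h ∈ H, (if x ∣ n + h then (2 : ℝ) else 0) := by
        refine Finset.sum_le_sum_of_subset_of_nonneg ?_ ?_
        · intro n hn
          rw [Finset.mem_sdiff] at hn
          unfold Ai at hn
          exact (Finset.mem_filter.1 hn.1).1
        · intro n _ _
          exact Finset.sum_nonneg fun _ _ => by split_ifs <;> norm_num
    _ = ∑ h ∈ H, (((Icc 1 N).filter (fun n => x ∣ n + h)).card : ℝ) * 2 := by
        rw [Finset.sum_comm]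
        refine Finset.sum_congr rfl fun h _ => ?_
        rw [← Finset.sum_filter, Finset.sum_const, nsmul_eq_mul]
    _ ≤ ∑ _h ∈ H, (3 * (N : ℝ) / 2 ^ i) * 2 := by
        refine Finset.sum_le_sum fun h _ => ?_
        have h3 : (((Icc 1 N).filter (fun n => x ∣ n + h)).card : ℝ) ≤ ((N / x : ℕ) : ℝ) + 1 := by
          exact_mod_cast card_shift_dvd N h x ((Nat.zero_le _).trans_lt hxbig)
        have h4 : (3 : ℝ) * N / 2 ^ i = N / 2 ^ i + 2 * N / 2 ^ i := by ring
        linarith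
    _ = H.card * ((3 * (N : ℝ) / 2 ^ i) * 2) := by rw [Finset.sum_const, nsmul_eq_mul]
    _ ≤ k * ((3 * (N : ℝ) / 2 ^ i) * 2) := by
        have : (H.card : ℝ) ≤ k := by exact_mod_cast hk
        exact mul_le_mul_of_nonneg_right this (by positivity)
    _ = 2 * (3 * k * N / 2 ^ i) := by ring

/-- the number of bad digit sets for one `N` -/
theorem bad_card {H : Finset ℕ} {N i k : ℕ} (hH : ∀ h ∈ H, h ≤ 2 ^ i) (hk : H.card ≤ k)
    (hk1 : 1 ≤ k) (hN1 : 1 ≤ N) (hN : 2 ^ (i + 1) ≤ 4 * N) (τ : ℝ) (hτ : 0 < τ) :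
    (((range (pc (i + 1))).powerset.filter
      (fun T => τ * N / (i + 1) ≤ |Dl H N i T|)).card : ℝ) ≤
      2 * 2 ^ (pc (i + 1)) * Real.exp (-(τ ^ 2 / (7200 * k ^ 2) * pc (i + 1))) := by
  have hN' : (1 : ℝ) ≤ N := by exact_mod_cast hN1
  have hk' : (1 : ℝ) ≤ k := by exact_mod_cast hk1
  have h2i : (0 : ℝ) < 2 ^ i := by positivity
  have hi1 : (0 : ℝ) < (i : ℝ) + 1 := by positivity
  set b : ℝ := 3 * k * N / 2 ^ i with hb
  set V : ℝ := 180 * k ^ 2 * N ^ 2 / ((i + 1) * 2 ^ i) with hV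
  have hpcu := pc_upper (i + 1)
  push_cast at hpcu
  have hblk : ((blk i).card : ℝ) ≤ pc (i + 1) := by
    have : (blk i).card ≤ pc (i + 1) := by
      unfold blk; rw [Nat.card_Ico]; omega
    exact_mod_cast this
  have hVb : ((blk i).card : ℝ) * b ^ 2 ≤ V := by
    have h1 : ((blk i).card : ℝ) ≤ 20 * 2 ^ i / (i + 1) := by
      rw [le_div_iff₀ hi1]
      have : (pc (i + 1) : ℝ) * (i + 1) ≤ 20 * 2 ^ i := by
        rw [pow_succ] at hpcu; linarith
      nlinarith
    calc ((blk i).card : ℝ) * b ^ 2 ≤ (20 * 2 ^ i / (i + 1)) * b ^ 2 :=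
          mul_le_mul_of_nonneg_right h1 (by positivity)
      _ = V := by rw [hb, hV]; field_simp; ring
  have hV0 : 0 < V := by rw [hV]; positivity
  have ht : 0 < τ * N / (i + 1) := by positivity
  have h := tail (range (pc i)) (blk i) (blk_disj i) b V (τ * N / (i + 1)) hVb hV0 ht (Dl H N i)
    (bdd_diff hH hk hN) (fun T0 hT0 => mean_zero hH T0 hT0)
  rw [blk_union, ← Finset.card_union_of_disjoint (blk_disj i), blk_union, Finset.card_range] at h
  refine h.trans (mul_le_mul_of_nonneg_left (Real.exp_le_exp.2 ?_) (by positivity))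
  rw [neg_le_neg_iff]
  have e : (τ * N / (i + 1)) ^ 2 / (2 * V) = τ ^ 2 / (360 * k ^ 2) * (2 ^ i / (i + 1)) := by
    rw [hV]; field_simp; ring
  rw [e]
  have h3 : (pc (i + 1) : ℝ) / 20 ≤ 2 ^ i / (i + 1) := by
    rw [div_le_div_iff₀ (by norm_num) hi1]
    rw [pow_succ] at hpcu; linarith
  calc τ ^ 2 / (7200 * k ^ 2) * pc (i + 1) = τ ^ 2 / (360 * k ^ 2) * (pc (i + 1) / 20) := by ring
    _ ≤ τ ^ 2 / (360 * k ^ 2) * (2 ^ i / (i + 1)) := mul_le_mul_of_nonneg_left h3 (by positivity)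

end Pool.Agent.K9h39.CD
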