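import Mathlib
import Pool.Agent.K9h39.CD.D
import Pool.Agent.W257.FS.D

set_option autoImplicit false

/-! Digits of a multiplicative function, the scales of one `N`. -/

namespace Pool.Agent.K9h39.CD

open Finset Filter
open Pool.Agent.W257.FS (SignMul)

/-- the first `m` digits of `f` -/
noncomputable def dg (f : ℕ → ℝ) (m : ℕ) : Finset ℕ := by
  classical exact (range m).filter (fun j => f (Nat.nth IsPrimePow j) = -1)

theorem mem_dg {f : ℕ → ℝ} {m j : ℕ} : j ∈ dg f m ↔ j < m ∧ f (Nat.nth IsPrimePow j) = -1 := by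
  unfold dg
  rw [Finset.mem_filter, Finset.mem_range]

theorem sg_dg {f : ℕ → ℝ} (hf : SignMul f) {x i m : ℕ} (hx : IsPrimePow x) (hxi : x ≤ 2 ^ i)
    (him : pc i ≤ m) : sg (dg f m) x = f x := by
  have h1 : Nat.count IsPrimePow x < m := ((count_lt_pc hx).2 hxi).trans_le him
  have h2 : Nat.nth IsPrimePow (Nat.count IsPrimePow x) = x := Nat.nth_count hx
  unfold sg
  rcases hf.val x hx.one_lt.le with h | h
  · rw [if_neg, h]
    intro hc
    rw [mem_dg, h2, h] at hc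
    norm_num at hc
  · rw [if_pos, h]
    rw [mem_dg, h2]
    exact ⟨h1, h⟩

theorem wv_dg {f : ℕ → ℝ} (hf : SignMul f) {H : Finset ℕ} {N i m n : ℕ} (hn : n ∈ Ai H N i)
    (him : pc i ≤ m) : wv H n (dg f m) = ∏ h ∈ H, f (n + h) := by
  unfold Ai at hn
  rw [Finset.mem_filter, Finset.mem_Icc] at hn
  obtain ⟨⟨hn1, -⟩, hn2⟩ := hn
  unfold wv Zn
  rw [Finset.prod_sigma]
  refine Finset.prod_congr rfl fun h hh => ?_
  have hne : n + h ≠ 0 := by omega
  have e := Nat.multiplicative_factorization f (fun x y hxy => hf.mul x y hxy) hf.one hne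
  rw [e]
  unfold Finsupp.prod
  rw [Nat.support_factorization]
  refine Finset.prod_congr rfl fun p hp => ?_
  have hz : (⟨h, p⟩ : Σ _ : ℕ, ℕ) ∈ Zn H n := by
    unfold Zn; rw [Finset.mem_sigma]; exact ⟨hh, hp⟩
  exact sg_dg hf (cp_pp hz) (hn2 h hh p hp) him

/-- partial correlation sum -/
noncomputable def QQ (f : ℕ → ℝ) (H : Finset ℕ) (N i : ℕ) : ℝ :=
  ∑ n ∈ Ai H N i, ∏ h ∈ H, f (n + h)

theorem PP_dg {f : ℕ → ℝ} (hf : SignMul f) {H : Finset ℕ} {N i m : ℕ} (him : pc i ≤ m) :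
    PP H N i (dg f m) = QQ f H N i :=
  Finset.sum_congr rfl fun _ hn => wv_dg hf hn him

theorem Dl_dg {f : ℕ → ℝ} (hf : SignMul f) (H : Finset ℕ) (N i : ℕ) :
    Dl H N i (dg f (pc (i + 1))) = QQ f H N (i + 1) - QQ f H N i := by
  unfold Dl
  rw [PP_dg hf le_rfl, PP_dg hf (pc_mono (Nat.le_succ i))]

theorem QQ_full {f : ℕ → ℝ} {H : Finset ℕ} {N i : ℕ} (h : ∀ h ∈ H, N + h ≤ 2 ^ i) :
    QQ f H N i = ∑ n ∈ Icc 1 N, ∏ h ∈ H, f (n + h) := by
  unfold QQ
  have : Ai H N i = Icc 1 N := by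
    unfold Ai
    rw [Finset.filter_eq_self]
    intro n hn a ha p hp
    rw [Finset.mem_Icc] at hn
    have h1 : p ^ (n + a).factorization p ≤ n + a :=
      Nat.le_of_dvd (by omega) (Nat.ordProj_dvd _ _)
    have := h a ha
    omega
  rw [this]

theorem harm (a b : ℕ) (hab : a + 1 ≤ b) :
    ∑ i ∈ Ico a b, 1 / ((i : ℝ) + 1) ≤ 1 + Real.log (b / (a + 1)) := by
  induction b, hab using Nat.le_induction with
  | base =>
    rw [Nat.Ico_succ_singleton, Finset.sum_singleton]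
    push_cast
    rw [div_self (by positivity), Real.log_one, add_zero, div_le_one (by positivity)]
    linarith [(Nat.cast_nonneg a : (0 : ℝ) ≤ a)]
  | succ b hb ih =>
    rw [Finset.sum_Ico_succ_top (by omega)]
    have hb0 : (0 : ℝ) < b := by exact_mod_cast (by omega : 0 < b)
    have ha0 : (0 : ℝ) < (a : ℝ) + 1 := by positivity
    have h1 : Real.log ((b : ℝ) / (b + 1)) ≤ (b : ℝ) / (b + 1) - 1 :=
      Real.log_le_sub_one_of_pos (by positivity)
    have h2 : (b : ℝ) / (b + 1) - 1 = -(1 / (b + 1)) := by field_simp; ring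
    rw [h2, Real.log_div hb0.ne' (by positivity)] at h1
    push_cast
    rw [Real.log_div hb0.ne' ha0.ne'] at ih
    rw [Real.log_div (by positivity) ha0.ne']
    linarith

theorem find_scale {f : ℕ → ℝ} {H : Finset ℕ} {ε : ℝ} {K N : ℕ} (hε : 0 < ε)
    (hK : 1 ≤ K) (hN : 1 ≤ N) (hHN : ∀ h ∈ H, h ≤ N)
    (hbig : ε * N ≤ |∑ n ∈ Icc 1 N, ∏ h ∈ H, f (n + h)|)
    (hstart : |QQ f H N (Nat.log 2 N / K)| ≤ ε * N / 2) :
    ∃ i, Nat.log 2 N / K ≤ i ∧ 2 ^ (i + 1) ≤ 4 * N ∧ N < 2 ^ (K * (i + 1)) ∧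
      (ε / (2 * (1 + Real.log (K + 1)))) * N / (i + 1) ≤ |QQ f H N (i + 1) - QQ f H N i| := by
  set i0 := Nat.log 2 N / K with hi0
  set i1 := Nat.log 2 N + 2 with hi1
  have hlogN : Nat.log 2 N < K * (i0 + 1) := by
    have := Nat.lt_mul_div_succ (Nat.log 2 N) (by omega : 0 < K)
    rw [hi0]; exact this
  have hNlt : N < 2 ^ (Nat.log 2 N + 1) := Nat.lt_pow_succ_log_self (by norm_num) N
  have hNge : 2 ^ Nat.log 2 N ≤ N := Nat.pow_log_le_self 2 (by omega)
  have h01 : i0 + 1 ≤ i1 := by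
    have : i0 ≤ Nat.log 2 N := Nat.div_le_self _ _
    omega
  set L : ℝ := 1 + Real.log (K + 1) with hL
  have hK' : (1 : ℝ) ≤ K := by exact_mod_cast hK
  have hL1 : 1 ≤ L := by
    have : 0 ≤ Real.log ((K : ℝ) + 1) := Real.log_nonneg (by linarith)
    linarith
  have hfull : QQ f H N i1 = ∑ n ∈ Icc 1 N, ∏ h ∈ H, f (n + h) := by
    apply QQ_full
    intro h hh
    have h1 := hHN h hh
    have h2 : 2 ^ i1 = 2 * 2 ^ (Nat.log 2 N + 1) := by rw [hi1]; ring
    omega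
  have hN' : (1 : ℝ) ≤ N := by exact_mod_cast hN
  by_contra hcon
  push Not at hcon
  have hsmall : ∀ i ∈ Ico i0 i1, |QQ f H N (i + 1) - QQ f H N i| < (ε / (2 * L)) * N / (i + 1) := by
    intro i hi
    rw [Finset.mem_Ico] at hi
    refine hcon i hi.1 ?_ ?_
    · have h1 : 2 ^ (i + 1) ≤ 2 ^ i1 := Nat.pow_le_pow_right (by norm_num) (by omega)
      have h2 : 2 ^ i1 = 4 * 2 ^ (Nat.log 2 N) := by rw [hi1]; ring
      omega
    · refine hNlt.trans_le (Nat.pow_le_pow_right (by norm_num) ?_)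
      have : K * (i0 + 1) ≤ K * (i + 1) := Nat.mul_le_mul_left _ (by omega)
      omega
  have hdist : |QQ f H N i1 - QQ f H N i0| ≤ ∑ i ∈ Ico i0 i1, |QQ f H N (i + 1) - QQ f H N i| := by
    have := dist_le_Ico_sum_dist (fun i => QQ f H N i) (m := i0) (n := i1) (by omega)
    rw [Real.dist_eq, abs_sub_comm] at this
    refine this.trans (le_of_eq (Finset.sum_congr rfl fun i _ => ?_))
    rw [Real.dist_eq, abs_sub_comm]
  have hlt : ∑ i ∈ Ico i0 i1, |QQ f H N (i + 1) - QQ f H N i| <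
      ∑ i ∈ Ico i0 i1, (ε / (2 * L)) * N / (i + 1) :=
    Finset.sum_lt_sum_of_nonempty (Finset.nonempty_Ico.2 (by omega)) hsmall
  have hsum : ∑ i ∈ Ico i0 i1, (ε / (2 * L)) * N / ((i : ℝ) + 1) ≤ ε * N / 2 := by
    have h1 : ∑ i ∈ Ico i0 i1, (ε / (2 * L)) * N / ((i : ℝ) + 1) =
        (ε / (2 * L)) * N * ∑ i ∈ Ico i0 i1, 1 / ((i : ℝ) + 1) := by
      rw [Finset.mul_sum]
      refine Finset.sum_congr rfl fun i _ => ?_
      ring
    have h2 : ∑ i ∈ Ico i0 i1, 1 / ((i : ℝ) + 1) ≤ L := by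
      refine (harm i0 i1 h01).trans ?_
      rw [hL]
      have h3 : (i1 : ℝ) / (i0 + 1) ≤ K + 1 := by
        rw [div_le_iff₀ (by positivity)]
        have h4 : i1 ≤ (K + 1) * (i0 + 1) := by
          have e : (K + 1) * (i0 + 1) = K * (i0 + 1) + (i0 + 1) := by ring
          rw [e]
          have h40 : i1 ≤ K * (i0 + 1) + 1 := by omega
          exact h40.trans (Nat.add_le_add_left (Nat.le_add_left 1 i0) _)
        exact_mod_cast h4
      have h5 : (0 : ℝ) < i1 := by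
        have : 0 < i1 := by omega
        exact_mod_cast this
      have := Real.log_le_log (by positivity) h3
      linarith
    rw [h1]
    calc (ε / (2 * L)) * N * ∑ i ∈ Ico i0 i1, 1 / ((i : ℝ) + 1)
        ≤ (ε / (2 * L)) * N * L := mul_le_mul_of_nonneg_left h2 (by positivity)
      _ = ε * N / 2 := by field_simp
  have h1 : |QQ f H N i1| ≤ |QQ f H N i1 - QQ f H N i0| + |QQ f H N i0| := by
    have := abs_add_le (QQ f H N i1 - QQ f H N i0) (QQ f H N i0)
    rwa [sub_add_cancel] at this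
  rw [← hfull] at hbig
  linarith

theorem QQ_abs {f : ℕ → ℝ} (hf : SignMul f) (H : Finset ℕ) (N i : ℕ) :
    |QQ f H N i| ≤ (Ai H N i).card := by
  unfold QQ
  refine (Finset.abs_sum_le_sum_abs _ _).trans ?_
  rw [← nsmul_one (Ai H N i).card, ← Finset.sum_const]
  refine Finset.sum_le_sum fun n hn => ?_
  rw [Finset.abs_prod]
  refine le_of_eq (Finset.prod_eq_one fun h _ => ?_)
  unfold Ai at hn
  have := (Finset.mem_Icc.1 (Finset.mem_filter.1 hn).1).1
  rcases hf.val (n + h) (by omega) with h1 | h1 <;> rw [h1] <;> simp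

theorem Ai_card {H : Finset ℕ} (hH : H.Nonempty) {N i : ℕ} (hHN : ∀ h ∈ H, h ≤ N) :
    (Ai H N i).card ≤ ((Icc 1 (2 * N)).filter (Sm (2 ^ i))).card := by
  obtain ⟨h0, hh0⟩ := hH
  apply Finset.card_le_card_of_injOn (fun n => n + h0)
  · intro n hn
    unfold Ai at hn
    rw [Finset.mem_coe, Finset.mem_filter, Finset.mem_Icc] at hn
    rw [Finset.mem_coe, Finset.mem_filter, Finset.mem_Icc]
    have := hHN h0 hh0
    change (1 ≤ n + h0 ∧ n + h0 ≤ 2 * N) ∧ Sm _ (n + h0)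
    exact ⟨by omega, hn.2 h0 hh0⟩
  · intro a _ b _ hab
    simpa using hab

theorem start {H : Finset ℕ} (hH : H.Nonempty) {ε : ℝ} {K : ℕ} (hε : 0 < ε) (hK : 16 / ε ≤ K) :
    ∀ᶠ N : ℕ in atTop, ∀ f : ℕ → ℝ, SignMul f → |QQ f H N (Nat.log 2 N / K)| ≤ ε * N / 2 := by
  have hlog : Tendsto (fun N : ℕ => Real.log (N : ℝ)) atTop atTop :=
    Real.tendsto_log_atTop.comp tendsto_natCast_atTop_atTop
  have hK0 : (0 : ℝ) < K := lt_of_lt_of_le (by positivity) hK
  filter_upwards [eventually_ge_atTop (H.sup id), eventually_ge_atTop 1,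
    hlog.eventually_ge_atTop (192 / ε), tendsto_natCast_atTop_atTop.eventually_ge_atTop (128 / ε ^ 2)]
    with N h1 h2 h3 h4
  intro f hf
  have hHN : ∀ h ∈ H, h ≤ N := fun h hh => (Finset.le_sup (f := id) hh).trans h1
  have hN' : (1 : ℝ) ≤ N := by exact_mod_cast h2
  refine (QQ_abs hf H N _).trans ?_
  have h5 : ((Ai H N (Nat.log 2 N / K)).card : ℝ) ≤
      ((Icc 1 (2 * N)).filter (Sm (2 ^ (Nat.log 2 N / K)))).card := by
    exact_mod_cast Ai_card hH hHN
  refine h5.trans ?_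
  have h6 := smooth_card (2 * N) (2 ^ (Nat.log 2 N / K)) (by omega) (Nat.one_le_two_pow)
  push_cast at h6
  set C : ℝ := (((Icc 1 (2 * N)).filter (Sm (2 ^ (Nat.log 2 N / K)))).card : ℝ) with hC
  set l : ℝ := Real.log (2 * N) with hl
  have hl2 : 0 < Real.log 2 := Real.log_pos (by norm_num)
  have hlN : Real.log N ≤ l := by
    rw [hl, Real.log_mul (by norm_num) (by positivity)]; linarith
  have hl0 : 192 / ε ≤ l := h3.trans hlN
  have hlpos : 0 < l := lt_of_lt_of_le (by positivity) hl0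
  have hy : Real.log ((2 : ℝ) ^ (Nat.log 2 N / K)) ≤ l / K := by
    rw [Real.log_pow]
    have a1 : ((Nat.log 2 N / K : ℕ) : ℝ) ≤ (Nat.log 2 N : ℝ) / K := Nat.cast_div_le
    have a2 : (Nat.log 2 N : ℝ) * Real.log 2 ≤ Real.log N := by
      rw [← Real.log_pow]
      apply Real.log_le_log (by positivity)
      exact_mod_cast Nat.pow_log_le_self 2 (by omega : N ≠ 0)
    calc ((Nat.log 2 N / K : ℕ) : ℝ) * Real.log 2 ≤ (Nat.log 2 N : ℝ) / K * Real.log 2 :=
          mul_le_mul_of_nonneg_right a1 hl2.le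
      _ = ((Nat.log 2 N : ℝ) * Real.log 2) / K := by ring
      _ ≤ l / K := by
          apply div_le_div_of_nonneg_right _ hK0.le
          linarith
  have h7 : C * (l / 2) ≤ √(2 * N) * (l / 2) + 2 * N * (l / K + 6) := by
    have : 2 * (N : ℝ) * (Real.log ((2 : ℝ) ^ (Nat.log 2 N / K)) + 6) ≤ 2 * N * (l / K + 6) :=
      mul_le_mul_of_nonneg_left (by linarith) (by positivity)
    linarith
  have h8 : C ≤ √(2 * N) + 4 * N / K + 24 * N / l := by
    have h9 : (√(2 * N) + 4 * N / K + 24 * N / l) * (l / 2) =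
        √(2 * N) * (l / 2) + 2 * N * (l / K + 6) := by field_simp; ring
    rw [← h9] at h7
    exact le_of_mul_le_mul_right h7 (by positivity)
  have h10 : 4 * (N : ℝ) / K ≤ ε * N / 4 := by
    rw [div_le_iff₀ hK0]
    rw [div_le_iff₀ hε] at hK
    nlinarith
  have h11 : 24 * (N : ℝ) / l ≤ ε * N / 8 := by
    rw [div_le_iff₀ hlpos]
    rw [div_le_iff₀ hε] at hl0
    nlinarith
  have h12 : √(2 * (N : ℝ)) ≤ ε * N / 8 := by
    rw [Real.sqrt_le_left (by positivity)]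
    rw [div_le_iff₀ (by positivity)] at h4
    nlinarith
  linarith

end Pool.Agent.K9h39.CD
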