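import Mathlib
import Pool.Agent.K9h39.CD.E1
import Pool.Agent.N220.CF.A

set_option autoImplicit false

/-! Bad digit sets, the sum over the scales, and the dimension for one set of shifts. -/

namespace Pool.Agent.K9h39.CD

open Finset Filter Topology
open Pool.Agent.W257.FS (SignMul)

/-- the bad digit sets at the scale `i` -/
noncomputable def Bad (H : Finset ℕ) (K i : ℕ) (τ : ℝ) : Finset (Finset ℕ) := by
  classical exact (range (pc (i + 1))).powerset.filter (fun T => (∀ h ∈ H, h ≤ 2 ^ i) ∧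
    ∃ N ∈ Icc 1 (2 ^ (K * (i + 1))), 2 ^ (i + 1) ≤ 4 * N ∧ τ * N / (i + 1) ≤ |Dl H N i T|)

theorem mem_Bad {H : Finset ℕ} {K i : ℕ} {τ : ℝ} {T : Finset ℕ} : T ∈ Bad H K i τ ↔
    T ⊆ range (pc (i + 1)) ∧ (∀ h ∈ H, h ≤ 2 ^ i) ∧
    ∃ N ∈ Icc 1 (2 ^ (K * (i + 1))), 2 ^ (i + 1) ≤ 4 * N ∧ τ * N / (i + 1) ≤ |Dl H N i T| := by
  unfold Bad
  rw [Finset.mem_filter, Finset.mem_powerset]

theorem Bad_card {H : Finset ℕ} {K i k : ℕ} (hk : H.card ≤ k) (hk1 : 1 ≤ k) {τ : ℝ} (hτ : 0 < τ) :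
    ((Bad H K i τ).card : ℝ) ≤ 2 ^ (K * (i + 1)) *
      (2 * 2 ^ (pc (i + 1)) * Real.exp (-(τ ^ 2 / (7200 * k ^ 2) * pc (i + 1)))) := by
  classical
  by_cases hH : ∀ h ∈ H, h ≤ 2 ^ i
  swap
  · have : Bad H K i τ = ∅ := by
      rw [Finset.eq_empty_iff_forall_notMem]
      intro T hT
      exact hH (mem_Bad.1 hT).2.1
    rw [this, Finset.card_empty]
    push_cast
    positivity
  set B : ℝ := 2 * 2 ^ (pc (i + 1)) * Real.exp (-(τ ^ 2 / (7200 * k ^ 2) * pc (i + 1))) with hB
  set I := (Icc 1 (2 ^ (K * (i + 1)))).filter (fun N => 2 ^ (i + 1) ≤ 4 * N) with hI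
  have hsub : Bad H K i τ ⊆ I.biUnion (fun N => (range (pc (i + 1))).powerset.filter
      (fun T => τ * N / (i + 1) ≤ |Dl H N i T|)) := by
    intro T hT
    obtain ⟨h1, -, N, hN, hN2, h3⟩ := mem_Bad.1 hT
    rw [Finset.mem_biUnion]
    exact ⟨N, Finset.mem_filter.2 ⟨hN, hN2⟩, Finset.mem_filter.2 ⟨Finset.mem_powerset.2 h1, h3⟩⟩
  have h1 : ((Bad H K i τ).card : ℝ) ≤ ∑ N ∈ I, (((range (pc (i + 1))).powerset.filter
      (fun T => τ * N / (i + 1) ≤ |Dl H N i T|)).card : ℝ) := by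
    exact_mod_cast (Finset.card_le_card hsub).trans Finset.card_biUnion_le
  have h2 : ∑ N ∈ I, (((range (pc (i + 1))).powerset.filter
      (fun T => τ * N / (i + 1) ≤ |Dl H N i T|)).card : ℝ) ≤ ∑ _N ∈ I, B := by
    refine Finset.sum_le_sum fun N hN => ?_
    rw [Finset.mem_filter, Finset.mem_Icc] at hN
    exact bad_card hH hk hk1 hN.1.1 hN.2 τ hτ
  rw [Finset.sum_const, nsmul_eq_mul] at h2
  refine h1.trans (h2.trans (mul_le_mul_of_nonneg_right ?_ (by rw [hB]; positivity)))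
  have h3 : I.card ≤ 2 ^ (K * (i + 1)) := by
    refine (Finset.card_filter_le _ _).trans ?_
    simp
  exact_mod_cast h3

theorem summable_scales (K : ℕ) {δ : ℝ} (hδ : 0 < δ) :
    Summable (fun i : ℕ => (2 : ℝ) ^ (K * (i + 1)) * (2 * Real.exp (-(δ * pc (i + 1))))) := by
  have hl2 : 0 < Real.log 2 := Real.log_pos (by norm_num)
  have hgeo : Summable (fun i : ℕ => ((1 : ℝ) / 2) ^ i) :=
    summable_geometric_of_lt_one (by norm_num) (by norm_num)
  refine summable_of_isBigO_nat hgeo (Asymptotics.IsBigO.of_bound 1 ?_)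
  have ht := (tendsto_pow_const_div_const_pow_of_one_lt 2 (r := (2 : ℝ)) (by norm_num)).comp
    (tendsto_add_atTop_nat 1)
  have hc : 0 < δ / (4 * Real.log 2 * (K + 2)) := by positivity
  filter_upwards [ht.eventually (gt_mem_nhds hc), eventually_ge_atTop 1] with i h1 h2
  simp only [Function.comp_apply] at h1
  push_cast at h1
  have h2i : (0 : ℝ) < 2 ^ (i + 1) := by positivity
  rw [div_lt_div_iff₀ h2i (by positivity)] at h1
  have h3 := pc_lower (i + 1) (by omega)
  push_cast at h3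
  have hi1 : (0 : ℝ) < (i : ℝ) + 1 := by positivity
  have h4 : Real.log 2 * (K + 2) * (i + 1) ≤ δ * pc (i + 1) := by
    have h5 : ((i : ℝ) + 1) ^ 2 * (4 * Real.log 2 * (K + 2)) ≤ δ * (4 * (i + 1) * pc (i + 1)) :=
      h1.le.trans (mul_le_mul_of_nonneg_left h3 hδ.le)
    have h6 : (4 * ((i : ℝ) + 1)) * (Real.log 2 * (K + 2) * (i + 1)) ≤
        (4 * ((i : ℝ) + 1)) * (δ * pc (i + 1)) := by nlinarith
    exact le_of_mul_le_mul_left h6 (by positivity)
  rw [Real.norm_of_nonneg (by positivity), Real.norm_of_nonneg (by positivity), one_mul]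
  have e1 : (2 : ℝ) ^ (K * (i + 1)) = Real.exp (Real.log 2 * (K * (i + 1))) := by
    rw [Real.exp_mul, Real.exp_log (by norm_num), ← Real.rpow_natCast]; push_cast; rfl
  have e2 : ((1 : ℝ) / 2) ^ i = Real.exp (-(Real.log 2 * i)) := by
    rw [Real.exp_neg, Real.exp_mul, Real.exp_log (by norm_num), Real.rpow_natCast, one_div, inv_pow]
  have e3 : (2 : ℝ) = Real.exp (Real.log 2) := (Real.exp_log (by norm_num)).symm
  calc (2 : ℝ) ^ (K * (i + 1)) * (2 * Real.exp (-(δ * pc (i + 1))))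
      = Real.exp (Real.log 2 * (K * (i + 1)) + (Real.log 2 + -(δ * pc (i + 1)))) := by
        rw [Real.exp_add, Real.exp_add, ← e1, ← e3]
    _ ≤ Real.exp (-(Real.log 2 * i)) := by
        apply Real.exp_le_exp.2
        nlinarith
    _ = ((1 : ℝ) / 2) ^ i := e2.symm

/-- the point of `[0,1]` whose binary digits are the signs at the prime powers -/
noncomputable def code (f : ℕ → ℝ) : ℝ := by
  classical exact ∑' j : ℕ, if f (Nat.nth IsPrimePow j) = -1 then (1 / 2 : ℝ) ^ (j + 1) else 0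

/-- left end point of a cylinder -/
noncomputable def cT (T : Finset ℕ) : ℝ := ∑ j ∈ T, (1 / 2 : ℝ) ^ (j + 1)

theorem code_mem (f : ℕ → ℝ) (m : ℕ) :
    code f ∈ Set.Icc (cT (dg f m)) (cT (dg f m) + (1 / 2 : ℝ) ^ m) := by
  classical
  have hg : HasSum (fun j : ℕ => (1 / 2 : ℝ) ^ (j + 1)) 1 := by
    have h := hasSum_geometric_two
    have h2 := h.mul_left (1 / 2 : ℝ)
    have e : (fun j : ℕ => (1 / 2 : ℝ) ^ (j + 1)) = fun j => 1 / 2 * (1 / 2 : ℝ) ^ j := by
      funext j; rw [pow_succ]; ring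
    have e2 : (1 / 2 : ℝ) * 2 = 1 := by norm_num
    rw [e2] at h2
    rw [e]
    exact h2
  set u : ℕ → ℝ := fun j => if f (Nat.nth IsPrimePow j) = -1 then (1 / 2 : ℝ) ^ (j + 1) else 0 with hu
  have hu0 : ∀ j, 0 ≤ u j := fun j => by simp only [hu]; split_ifs <;> positivity
  have hu1 : ∀ j, u j ≤ (1 / 2 : ℝ) ^ (j + 1) := fun j => by
    simp only [hu]; split_ifs
    · exact le_rfl
    · positivity
  have hus : Summable u := Summable.of_nonneg_of_le hu0 hu1 hg.summable
  have hcode : code f = ∑' j, u j := rfl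
  have hsplit := hus.sum_add_tsum_nat_add m
  have hT : ∑ j ∈ range m, u j = cT (dg f m) := by
    unfold cT dg
    rw [Finset.sum_filter]
  have htail : ∑' j, u (j + m) ≤ (1 / 2 : ℝ) ^ m := by
    have h1 : ∑' j, u (j + m) ≤ ∑' j : ℕ, (1 / 2 : ℝ) ^ m * (1 / 2 : ℝ) ^ (j + 1) := by
      refine Summable.tsum_le_tsum (fun j => ?_) ((summable_nat_add_iff m).2 hus)
        (hg.summable.mul_left _)
      refine (hu1 (j + m)).trans (le_of_eq ?_)
      rw [← pow_add]; congr 1; omega
    rw [tsum_mul_left, hg.tsum_eq, mul_one] at h1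
    exact h1
  have htail0 : 0 ≤ ∑' j, u (j + m) := tsum_nonneg fun j => hu0 _
  rw [hcode, ← hsplit, hT]
  constructor <;> linarith

/-- one set of shifts -/
def EH (H : Finset ℕ) (ε : ℝ) : Set (ℕ → ℝ) :=
  {f | SignMul f ∧ ∃ᶠ N : ℕ in atTop, ε ≤ |(∑ n ∈ Icc 1 N, ∏ h ∈ H, f (n + h)) / N|}

theorem dim_EH {H : Finset ℕ} (hH : H.Nonempty) {k : ℕ} (hk : H.card ≤ k) {ε : ℝ} (hε : 0 < ε)
    (hε1 : ε ≤ 1) :
    dimH (code '' EH H ε) ≤
      ENNReal.ofReal (1 - 1 / 921600 * ε ^ 2 / (k ^ 2 * (1 + Real.log (1 / ε)) ^ 2)) := by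
  classical
  have hk1 : 1 ≤ k := (Finset.card_pos.2 hH).trans_le hk
  have hk' : (1 : ℝ) ≤ k := by exact_mod_cast hk1
  set K : ℕ := ⌈16 / ε⌉₊ with hKdef
  have hK : 16 / ε ≤ K := Nat.le_ceil _
  have hKub : (K : ℝ) < 16 / ε + 1 := Nat.ceil_lt_add_one (by positivity)
  have hK16 : (16 : ℝ) ≤ K := by
    refine le_trans ?_ hK
    rw [le_div_iff₀ hε]; linarith
  have hK1 : 1 ≤ K := by
    have : (1 : ℝ) ≤ K := by linarith
    exact_mod_cast this
  set L : ℝ := 1 + Real.log (K + 1) with hL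
  set l : ℝ := 1 + Real.log (1 / ε) with hl
  have hl0 : 0 ≤ Real.log (1 / ε) := Real.log_nonneg (by rw [le_div_iff₀ hε]; linarith)
  have hL1 : 1 ≤ L := by
    have : 0 ≤ Real.log ((K : ℝ) + 1) := Real.log_nonneg (by linarith)
    linarith
  have hLl : L ≤ 4 * l := by
    have h1 : (K : ℝ) + 1 ≤ 18 * (1 / ε) := by
      have h2 : 16 / ε + 1 + 1 ≤ 18 * (1 / ε) := by
        have h3 : 1 ≤ 1 / ε := by rw [le_div_iff₀ hε]; linarith
        have h4 : 16 / ε = 16 * (1 / ε) := by ring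
        rw [h4]; linarith
      linarith
    have h2 := Real.log_le_log (by positivity) h1
    rw [Real.log_mul (by norm_num) (by positivity)] at h2
    have h3 : Real.log 18 ≤ 3 := by
      rw [Real.log_le_iff_le_exp (by norm_num)]
      have h9 : Real.exp 3 = Real.exp 1 ^ 3 := by rw [← Real.exp_nat_mul]; norm_num
      have h10 := Real.exp_one_gt_d9
      have h11 : (2.7 : ℝ) ^ 3 ≤ Real.exp 1 ^ 3 :=
        pow_le_pow_left₀ (by norm_num) (by linarith) 3
      rw [h9]
      norm_num at h11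
      linarith
    rw [hL, hl]
    linarith
  set τ : ℝ := ε / (2 * L) with hτ
  have hτ0 : 0 < τ := by rw [hτ]; positivity
  have hτ1 : τ ≤ 1 := by
    rw [hτ, div_le_one (by positivity)]; linarith
  set δ : ℝ := τ ^ 2 / (14400 * k ^ 2) with hδ
  have hδ0 : 0 < δ := by rw [hδ]; positivity
  have hδ1 : δ < 1 := by
    rw [hδ, div_lt_one (by positivity)]
    have : τ ^ 2 ≤ 1 := pow_le_one₀ hτ0.le hτ1
    nlinarith
  have hfin : dimH (code '' EH H ε) ≤ ENNReal.ofReal (1 - δ) := by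
    set ι : Type := Σ i : ℕ, {T : Finset ℕ // T ∈ Bad H K i τ} with hι
    set U : ι → Set ℝ := fun z => Set.Icc (cT z.2.1) (cT z.2.1 + (1 / 2 : ℝ) ^ pc (z.1 + 1)) with hU
    set d : ι → ℝ := fun z => (1 / 2 : ℝ) ^ pc (z.1 + 1) with hd
    have hsub : code '' EH H ε ⊆ {x | {z | x ∈ U z}.Infinite} := by
      rintro _ ⟨f, ⟨hf, hfreq⟩, rfl⟩
      -- infinitely many bad scales
      have hinf : {i : ℕ | dg f (pc (i + 1)) ∈ Bad H K i τ}.Infinite := by
        rw [Set.infinite_iff_exists_gt]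
        intro a
        have hlarge : ∀ᶠ N : ℕ in atTop, a + 1 + H.sup id ≤ Nat.log 2 N / K := by
          filter_upwards [eventually_ge_atTop (2 ^ (K * (a + 1 + H.sup id)))] with N hN
          rw [Nat.le_div_iff_mul_le (by omega)]
          rw [mul_comm]
          exact Nat.le_log_of_pow_le (by norm_num) hN
        obtain ⟨N, h1, h2, h3, h4, h5⟩ := (hfreq.and_eventually
          ((start hH hε hK).and ((eventually_ge_atTop 1).and
            ((eventually_ge_atTop (H.sup id)).and hlarge)))).exists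
        have hHN : ∀ h ∈ H, h ≤ N := fun h hh => (Finset.le_sup (f := id) hh).trans h4
        have hN' : (0 : ℝ) < N := by exact_mod_cast h3
        have hbig : ε * N ≤ |∑ n ∈ Icc 1 N, ∏ h ∈ H, f (n + h)| := by
          rw [abs_div, abs_of_pos hN', le_div_iff₀ hN'] at h1
          exact h1
        obtain ⟨i, hi0, hi1, hi2, hi3⟩ := find_scale hε hK1 h3 hHN hbig (h2 f hf)
        refine ⟨i, ?_, by omega⟩
        change dg f (pc (i + 1)) ∈ Bad H K i τ
        rw [mem_Bad]
        refine ⟨?_, ?_, N, ?_, hi1, ?_⟩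
        · intro j hj
          rw [Finset.mem_range]
          exact (mem_dg.1 hj).1
        · intro h hh
          have h6 : h ≤ H.sup id := Finset.le_sup (f := id) hh
          have h7 : i < 2 ^ i := Nat.lt_two_pow_self
          omega
        · rw [Finset.mem_Icc]; exact ⟨h3, hi2.le⟩
        · rw [Dl_dg hf]
          exact hi3
      intro hcfin
      apply hinf
      refine (hcfin.image Sigma.fst).subset ?_
      intro i hi
      exact ⟨⟨i, ⟨dg f (pc (i + 1)), hi⟩⟩, code_mem f (pc (i + 1)), rfl⟩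
    refine (dimH_mono hsub).trans ?_
    refine Pool.Agent.N220.CF.dimH_limsup U d (fun z => by simp only [hd]; positivity) ?_
      (by linarith) ?_
    · intro z
      simp only [hU, hd]
      rw [Real.ediam_Icc]
      apply ENNReal.ofReal_le_ofReal
      linarith
    · rw [summable_sigma_of_nonneg (fun z => by simp only [hd]; positivity)]
      refine ⟨fun i => ?_, ?_⟩
      · exact Summable.of_finite
      · refine Summable.of_nonneg_of_le (fun i => tsum_nonneg fun z => by simp only [hd]; positivity)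
          (fun i => ?_) (summable_scales K hδ0)
        simp only [hd]
        rw [tsum_fintype, Finset.sum_const, nsmul_eq_mul, Finset.card_univ, Fintype.card_coe]
        have hB := Bad_card (K := K) (i := i) hk hk1 hτ0
        set m := pc (i + 1) with hm
        have h2 : τ ^ 2 / (7200 * (k : ℝ) ^ 2) = 2 * δ := by rw [hδ]; ring
        rw [h2] at hB
        have hl2 : 0 < Real.log 2 := Real.log_pos (by norm_num)
        have hl21 : Real.log 2 ≤ 1 := by have := Real.log_two_lt_d9; linarith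
        have e1 : ((1 / 2 : ℝ) ^ m) ^ (1 - δ) = Real.exp (-(Real.log 2 * m * (1 - δ))) := by
          rw [← Real.rpow_natCast, ← Real.rpow_mul (by norm_num), one_div,
            Real.inv_rpow (by norm_num), Real.exp_neg, mul_assoc, Real.exp_mul,
            Real.exp_log (by norm_num)]
        have e2 : (2 : ℝ) ^ m = Real.exp (Real.log 2 * m) := by
          rw [Real.exp_mul, Real.exp_log (by norm_num), Real.rpow_natCast]
        calc ((Bad H K i τ).card : ℝ) * ((1 / 2 : ℝ) ^ m) ^ (1 - δ)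
            ≤ (2 ^ (K * (i + 1)) * (2 * 2 ^ m * Real.exp (-(2 * δ * m)))) *
              ((1 / 2 : ℝ) ^ m) ^ (1 - δ) := mul_le_mul_of_nonneg_right hB (by positivity)
          _ = 2 ^ (K * (i + 1)) * (2 * Real.exp (Real.log 2 * m + -(2 * δ * m) +
              -(Real.log 2 * m * (1 - δ)))) := by
              rw [Real.exp_add, Real.exp_add, ← e1, ← e2]; ring
          _ ≤ 2 ^ (K * (i + 1)) * (2 * Real.exp (-(δ * m))) := by
              have hm0 : (0 : ℝ) ≤ m := Nat.cast_nonneg _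
              have : Real.log 2 * m + -(2 * δ * m) + -(Real.log 2 * m * (1 - δ)) ≤ -(δ * m) := by
                have h5 : Real.log 2 * (δ * m) ≤ 1 * (δ * m) :=
                  mul_le_mul_of_nonneg_right hl21 (by positivity)
                nlinarith
              have := Real.exp_le_exp.2 this
              gcongr
  refine hfin.trans (ENNReal.ofReal_le_ofReal ?_)
  have hl1 : 1 ≤ l := by rw [hl]; linarith
  have h1 : 1 / 921600 * ε ^ 2 / (k ^ 2 * l ^ 2) ≤ δ := by
    rw [hδ, hτ, div_pow, div_div, div_le_div_iff₀ (by positivity) (by positivity)]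
    have h2 : L ^ 2 ≤ (4 * l) ^ 2 := pow_le_pow_left₀ (by linarith) hLl 2
    have h3 : 0 ≤ ε ^ 2 * (k : ℝ) ^ 2 := by positivity
    have h4 := mul_le_mul_of_nonneg_left h2 h3
    nlinarith
  linarith

end Pool.Agent.K9h39.CD
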