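import Mathlib
import Pool.Agent.K9h39.CD.E2
import Pool.Agent.TH668.Gen.A
import Pool.Agent.TH668.Gen.D

set_option autoImplicit false

/-! Logarithmic averages, Furstenberg systems, and the binary code of multiplicative functions. -/

namespace Pool.Agent.K9h39.CD

open Finset Filter Topology MeasureTheory
open Pool.Agent.W257.FS (SignMul IsFurst bern logAvg xf)
open Pool.Agent.TH668.Gen (Corr mulOf cl FH)

/-- partial summation -/
theorem abel_log (a : ℕ → ℝ) (η M : ℝ) (hη : 0 ≤ η)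
    (h : ∀ N, |∑ n ∈ Icc 1 N, a n| ≤ η * N + M) (N : ℕ) (hN : 1 ≤ N) :
    |∑ n ∈ Icc 1 N, a n / n - (∑ n ∈ Icc 1 N, a n) / N| ≤
      η * Real.log N + M * (1 - 1 / N) := by
  induction N, hN using Nat.le_induction with
  | base => simp
  | succ N hN ih =>
    have hN0 : (0 : ℝ) < N := by exact_mod_cast (by omega : 0 < N)
    rw [Finset.sum_Icc_succ_top (by omega), Finset.sum_Icc_succ_top (by omega)]
    set A := ∑ n ∈ Icc 1 N, a n / n with hA
    set S := ∑ n ∈ Icc 1 N, a n with hS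
    have e1 : A + a (N + 1) / ((N + 1 : ℕ) : ℝ) - (S + a (N + 1)) / ((N + 1 : ℕ) : ℝ) =
        (A - S / N) + S / (N * (N + 1)) := by
      push_cast; field_simp; ring
    rw [e1]
    have h1 := h N
    rw [← hS] at h1
    have h2 : |S / ((N : ℝ) * (N + 1))| ≤ η * (1 / ((N : ℝ) + 1)) + M * (1 / N - 1 / (N + 1)) := by
      rw [abs_div, abs_of_pos (by positivity : (0 : ℝ) < (N : ℝ) * (N + 1)),
        div_le_iff₀ (by positivity)]
      refine h1.trans (le_of_eq ?_)
      field_simp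
      ring
    have h3 : 1 / ((N : ℝ) + 1) ≤ Real.log ((N : ℝ) + 1) - Real.log N := by
      have h4 : Real.log ((N : ℝ) / (N + 1)) ≤ (N : ℝ) / (N + 1) - 1 :=
        Real.log_le_sub_one_of_pos (by positivity)
      have h5 : (N : ℝ) / (N + 1) - 1 = -(1 / (N + 1)) := by field_simp; ring
      rw [h5, Real.log_div hN0.ne' (by positivity)] at h4
      linarith
    have h4 := mul_le_mul_of_nonneg_left h3 hη
    have h5 := abs_add_le (A - S / N) (S / (N * (N + 1)))
    push_cast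
    have e2 : M * (1 - 1 / (N : ℝ)) + M * (1 / N - 1 / (N + 1)) = M * (1 - 1 / ((N : ℝ) + 1)) := by
      ring
    linarith

theorem freq_log {a : ℕ → ℝ} (ha : ∀ n, 1 ≤ n → |a n| ≤ 1) {η : ℝ} (hη : 0 < η)
    (h : ∃ᶠ N : ℕ in atTop, 2 * η ≤ |(∑ n ∈ Icc 1 N, a n / n) / Real.log N|) :
    ∃ᶠ N : ℕ in atTop, η ≤ |(∑ n ∈ Icc 1 N, a n) / N| := by
  by_contra hcon
  rw [Filter.not_frequently] at hcon
  obtain ⟨M, hM⟩ := eventually_atTop.1 hcon
  apply h
  have hbd : ∀ N : ℕ, |∑ n ∈ Icc 1 N, a n| ≤ η * N + M := by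
    intro N
    have htriv : |∑ n ∈ Icc 1 N, a n| ≤ N := by
      refine (Finset.abs_sum_le_sum_abs _ _).trans ?_
      have h1 : ∑ n ∈ Icc 1 N, |a n| ≤ ∑ _n ∈ Icc 1 N, (1 : ℝ) :=
        Finset.sum_le_sum fun n hn => ha n (Finset.mem_Icc.1 hn).1
      simpa using h1
    by_cases hN : M ≤ N ∧ 1 ≤ N
    · have h2 := hM N hN.1
      push Not at h2
      have hN0 : (0 : ℝ) < N := by exact_mod_cast hN.2
      rw [abs_div, abs_of_pos hN0, div_lt_iff₀ hN0] at h2
      have : (0 : ℝ) ≤ M := Nat.cast_nonneg _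
      linarith
    · have h2 : (N : ℝ) ≤ M := by
        have : N ≤ M := by
          by_contra hc
          apply hN
          constructor <;> omega
        exact_mod_cast this
      have : 0 ≤ η * N := by positivity
      linarith
  have hlog : Tendsto (fun N : ℕ => Real.log (N : ℝ)) atTop atTop :=
    Real.tendsto_log_atTop.comp tendsto_natCast_atTop_atTop
  filter_upwards [hlog.eventually_gt_atTop ((η + 2 * M) / η), hlog.eventually_gt_atTop 0,
    eventually_ge_atTop 1] with N h1 h2 h3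
  push Not
  have hN0 : (0 : ℝ) < N := by exact_mod_cast h3
  have hN1 : (1 : ℝ) ≤ N := by exact_mod_cast h3
  have hM0 : (0 : ℝ) ≤ M := Nat.cast_nonneg _
  have h4 := abel_log a η M hη.le hbd N h3
  have h5 := hbd N
  rw [abs_div, abs_of_pos h2, div_lt_iff₀ h2]
  rw [div_lt_iff₀ hη] at h1
  have h6 : |(∑ n ∈ Icc 1 N, a n) / N| ≤ η + M := by
    rw [abs_div, abs_of_pos hN0, div_le_iff₀ hN0]
    nlinarith
  have h7 : |∑ n ∈ Icc 1 N, a n / n| ≤
      |∑ n ∈ Icc 1 N, a n / n - (∑ n ∈ Icc 1 N, a n) / N| + |(∑ n ∈ Icc 1 N, a n) / N| := by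
    have := abs_add_le (∑ n ∈ Icc 1 N, a n / n - (∑ n ∈ Icc 1 N, a n) / N)
      ((∑ n ∈ Icc 1 N, a n) / N)
    rwa [sub_add_cancel] at this
  have h8 : (M : ℝ) * (1 - 1 / N) ≤ M := by
    have : 0 ≤ (M : ℝ) * (1 / N) := by positivity
    linarith
  linarith

/-- change the value at `0` -/
noncomputable def fix0 (f : ℕ → ℝ) (n : ℕ) : ℝ := if n = 0 then 1 else f n

theorem fix0_or {f : ℕ → ℝ} (hf : SignMul f) (n : ℕ) : fix0 f n = 1 ∨ fix0 f n = -1 := by
  unfold fix0
  split_ifs with h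
  · exact Or.inl rfl
  · exact hf.val n (by omega)

theorem fix0_ne {f : ℕ → ℝ} {n : ℕ} (hn : 1 ≤ n) : fix0 f n = f n := by
  unfold fix0; rw [if_neg (by omega)]

theorem fix0_mul {f : ℕ → ℝ} (hf : SignMul f) : SignMul (fix0 f) where
  one := by rw [fix0_ne le_rfl]; exact hf.one
  mul := by
    intro m n hmn
    rcases Nat.eq_zero_or_pos m with rfl | hm
    · rw [Nat.coprime_zero_left] at hmn
      subst hmn
      rw [mul_one, fix0_ne (f := f) (n := 1) le_rfl, hf.one, mul_one]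
    rcases Nat.eq_zero_or_pos n with rfl | hn
    · rw [Nat.coprime_zero_right] at hmn
      subst hmn
      rw [one_mul, fix0_ne (f := f) (n := 1) le_rfl, hf.one, one_mul]
    rw [fix0_ne hm, fix0_ne hn, fix0_ne (Nat.mul_pos hm hn)]
    exact hf.mul m n hmn
  val := fun n hn => by rw [fix0_ne hn]; exact hf.val n hn

theorem xf_fix0 (f : ℕ → ℝ) : xf (fix0 f) = xf f := by
  funext k
  unfold xf
  split_ifs with h
  · rw [fix0_ne]; omega
  · rfl

theorem furst_fix0 (f : ℕ → ℝ) (μ : Measure (ℤ → ℝ)) : IsFurst (fix0 f) μ ↔ IsFurst f μ := by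
  unfold IsFurst logAvg
  rw [xf_fix0]

theorem corr_fix0 (f : ℕ → ℝ) (H : Finset ℕ) (N : ℕ) : Corr (fix0 f) H N = Corr f H N := by
  unfold Corr
  congr 1
  refine Finset.sum_congr rfl fun n hn => ?_
  rw [Finset.mem_Icc] at hn
  congr 1
  refine Finset.prod_congr rfl fun h _ => ?_
  rw [fix0_ne]; omega

/-- a Furstenberg system is carried by the sequences bounded by `1` -/
theorem furst_supp {f : ℕ → ℝ} (hf : SignMul f) {μ : Measure (ℤ → ℝ)} (hμ : IsFurst f μ) (k : ℤ) :
    ∀ᵐ x ∂μ, |x k| ≤ 1 := by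
  obtain ⟨hp, N, hN, hlim⟩ := hμ
  set G : (ℤ → ℝ) → ℝ := fun x => min 1 (max 0 (|x k| - 1)) with hG
  have hGc : Continuous G := by
    simp only [hG]
    fun_prop
  have hG0 : ∀ x, 0 ≤ G x := fun x => le_min zero_le_one (le_max_left _ _)
  have hG1 : ∀ x, G x ≤ 1 := fun x => min_le_left _ _
  have hl := hlim G hGc ⟨1, fun x => by rw [abs_of_nonneg (hG0 x)]; exact hG1 x⟩
  have hz : ∀ M, logAvg f G M = 0 := by
    intro M
    unfold logAvg
    rw [Finset.sum_eq_zero, zero_div]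
    intro n _
    have h1 := Pool.Agent.W257.FS.xf_abs hf (k + n)
    have h2 : G (fun k => xf f (k + n)) = 0 := by
      simp only [hG]
      rw [max_eq_left (by linarith), min_eq_right zero_le_one]
    rw [h2, zero_div]
  have h0 : ∫ x, G x ∂μ = 0 := by
    refine tendsto_nhds_unique hl ?_
    simp only [hz]
    exact tendsto_const_nhds
  have hGi : Integrable G μ := by
    refine Integrable.of_bound (C := 1) hGc.measurable.aestronglyMeasurable ?_
    exact Eventually.of_forall fun x => by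
      rw [Real.norm_eq_abs, abs_of_nonneg (hG0 x)]; exact hG1 x
  have h1 := (integral_eq_zero_iff_of_nonneg hG0 hGi).1 h0
  filter_upwards [h1] with x hx
  by_contra hc
  push Not at hc
  have : 0 < G x := by
    simp only [hG]
    exact lt_min one_pos (lt_max_of_lt_right (by linarith))
  rw [hx] at this
  simp at this

/-- a large correlation of a Furstenberg system -/
theorem furst_freq {f : ℕ → ℝ} (hf : SignMul f) {μ : Measure (ℤ → ℝ)} (hμ : IsFurst f μ)
    {H : Finset ℕ} {ε : ℝ} (hε : 0 < ε) (hI : ε ≤ |∫ x, ∏ h ∈ H, x (h : ℤ) ∂μ|) :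
    ∃ᶠ N : ℕ in atTop, ε / 4 ≤ |(∑ n ∈ Icc 1 N, ∏ h ∈ H, f (n + h)) / N| := by
  have hsupp : ∀ᵐ x ∂μ, ∀ h ∈ H, |x (h : ℤ)| ≤ 1 := by
    have h1 : ∀ᵐ x ∂μ, ∀ h : ℕ, |x (h : ℤ)| ≤ 1 := by
      rw [ae_all_iff]
      exact fun h => furst_supp hf hμ h
    filter_upwards [h1] with x hx h _ using hx h
  have e1 : ∫ x, ∏ h ∈ H, x (h : ℤ) ∂μ = ∫ x, FH H x ∂μ := by
    apply integral_congr_ae
    filter_upwards [hsupp] with x hx
    unfold FH
    exact Finset.prod_congr rfl fun h hh => (Pool.Agent.TH668.Gen.cl_or (hx h hh)).symm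
  rw [e1] at hI
  have hμ' : IsFurst (fix0 f) μ := (furst_fix0 f μ).2 hμ
  obtain ⟨-, N, hN, hlim⟩ := hμ'
  have hl := hlim (FH H) (Pool.Agent.TH668.Gen.FH_cont H) ⟨1, Pool.Agent.TH668.Gen.FH_abs H⟩
  have hl2 : Tendsto (fun i => |Corr f H (N i)|) atTop (𝓝 |∫ x, FH H x ∂μ|) := by
    refine (hl.abs).congr fun i => ?_
    rw [Pool.Agent.TH668.Gen.logAvg_FH (fix0_or hf) H, corr_fix0]
  have hev : ∀ᶠ i in atTop, ε / 2 < |Corr f H (N i)| :=
    hl2.eventually (lt_mem_nhds (by linarith))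
  have hfr : ∃ᶠ M : ℕ in atTop, ε / 2 ≤ |Corr f H M| := by
    have h1 : ∃ᶠ i in atTop, ε / 2 ≤ |Corr f H (N i)| := (hev.mono fun i hi => hi.le).frequently
    exact hN.frequently h1
  have h2 := freq_log (a := fun n => ∏ h ∈ H, f (n + h)) (η := ε / 4) ?_ (by linarith) ?_
  · exact h2
  · intro n hn
    rw [Finset.abs_prod]
    refine le_of_eq (Finset.prod_eq_one fun h _ => ?_)
    rcases hf.val (n + h) (by omega) with h1 | h1 <;> rw [h1] <;> simp
  · refine hfr.mono fun M hM => ?_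
    have e : 2 * (ε / 4) = ε / 2 := by ring
    rw [e]
    exact hM

theorem mulOf_pp (ω : ℕ → Bool) {x : ℕ} (hx : IsPrimePow x) :
    mulOf ω x = if ω x then (1 : ℝ) else -1 := by
  obtain ⟨p, a, hp, ha, rfl⟩ := (isPrimePow_nat_iff x).1 hx
  unfold mulOf
  rw [Nat.primeFactors_prime_pow (by omega) hp, Finset.prod_singleton, hp.factorization_pow,
    Finsupp.single_eq_same]

theorem code_range : code '' {f | SignMul f} = Set.Icc (0 : ℝ) 1 := by
  classical
  apply Set.Subset.antisymm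
  · rintro _ ⟨f, _, rfl⟩
    have h := code_mem f 0
    have h0 : dg f 0 = ∅ := by
      rw [Finset.eq_empty_iff_forall_notMem]
      intro j hj
      exact absurd (mem_dg.1 hj).1 (by omega)
    rw [h0] at h
    unfold cT at h
    simpa using h
  · intro y hy
    obtain ⟨d, -, hd⟩ := Real.ofDigits_SurjOn (b := 2) (by norm_num) hy
    set ω : ℕ → Bool := fun x => decide (d (Nat.count IsPrimePow x) = 0) with hω
    refine ⟨mulOf ω, Pool.Agent.TH668.Gen.mulOf_signMul ω, ?_⟩
    rw [← hd]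
    unfold code Real.ofDigits
    refine tsum_congr fun j => ?_
    have hp : IsPrimePow (Nat.nth IsPrimePow j) := Nat.nth_mem_of_infinite ipp_infinite j
    have hc : Nat.count IsPrimePow (Nat.nth IsPrimePow j) = j :=
      Nat.count_nth_of_infinite ipp_infinite j
    rw [mulOf_pp ω hp]
    simp only [hω, hc]
    unfold Real.ofDigitsTerm
    rcases (by omega : d j = 0 ∨ d j = 1) with h | h
    · rw [h]; norm_num
    · rw [h]; norm_num; rw [one_div, inv_pow]

end Pool.Agent.K9h39.CD
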